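import Pool.Agent.K1H64.ST.Defs

/-!
# The collision bounds `S_COL1` and `S_COL2`
-/

set_option autoImplicit false

noncomputable section

namespace Pool.Agent.K1H9.ST

open Finset Pool.Agent.K1H64.ST

/-! ## Resampling some coordinates -/

section mixing

variable {n M : ℕ}

/-- Replace the coordinates in `E` of `r` by those of `ρ`. -/
def mix (E : Finset (Fin n)) (ρ r : Fin n → Fin M) : Fin n → Fin M :=
  fun l => if l ∈ E then ρ l else r l

lemma card_F : (Fintype.card (Fin n → Fin M) : ℝ) = (M : ℝ) ^ n := by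
  simp

/-- Swap of the coordinates in `E`. -/
def swapE (E : Finset (Fin n)) (p : (Fin n → Fin M) × (Fin n → Fin M)) :
    (Fin n → Fin M) × (Fin n → Fin M) := (mix E p.2 p.1, mix E p.1 p.2)

lemma swapE_invol (E : Finset (Fin n)) : Function.Involutive (swapE (n := n) (M := M) E) := by
  intro p
  unfold swapE mix
  ext l <;> by_cases h : l ∈ E <;> simp [h]

lemma sum_mix (E : Finset (Fin n)) (f : (Fin n → Fin M) → ℝ) :
    ∑ r, ∑ ρ, f (mix E ρ r) = (M : ℝ) ^ n * ∑ r, f r := by
  have h1 : ∑ r, ∑ ρ, f (mix E ρ r) = ∑ p : (Fin n → Fin M) × (Fin n → Fin M), f ((swapE E p).1) := by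
    rw [Fintype.sum_prod_type]
    rfl
  rw [h1]
  have h2 : ∑ p : (Fin n → Fin M) × (Fin n → Fin M), f ((swapE E p).1) =
      ∑ p : (Fin n → Fin M) × (Fin n → Fin M), f p.1 :=
    Equiv.sum_comp ((swapE_invol E).toPerm) (fun p => f p.1)
  rw [h2, Fintype.sum_prod_type]
  simp only [sum_const, card_univ, nsmul_eq_mul]
  rw [← mul_sum, card_F]

/-- Pairs with a given floor mean. -/
lemma card_mean (k : ℕ) :
    ((univ.filter (fun q : Fin M × Fin M => ((q.1 : ℕ) + (q.2 : ℕ)) / 2 = k)).card) ≤ 4 * k + 3 := by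
  have h : ((univ.filter (fun q : Fin M × Fin M => ((q.1 : ℕ) + (q.2 : ℕ)) / 2 = k)).card) ≤
      (range (4 * k + 3)).card := by
    apply Finset.card_le_card_of_injOn
      (fun q : Fin M × Fin M => if (q.1 : ℕ) + (q.2 : ℕ) = 2 * k then (q.1 : ℕ) else 2 * k + 1 + q.1)
    · intro q hq
      simp only [coe_filter, mem_univ, true_and, Set.mem_ofPred_eq] at hq
      simp only [coe_range, Set.mem_Iio]
      split_ifs <;> omega
    · intro q hq q' hq' h
      simp only [coe_filter, mem_univ, true_and, Set.mem_ofPred_eq] at hq hq'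
      simp only at h
      have : (q.1 : ℕ) = q'.1 ∧ (q.2 : ℕ) = q'.2 := by
        split_ifs at h <;> omega
      exact Prod.ext (Fin.ext this.1) (Fin.ext this.2)
  simpa using h

lemma card_fst (k : Fin M) :
    ((univ.filter (fun q : Fin M × Fin M => q.1 = k)).card) ≤ M := by
  have h : ((univ.filter (fun q : Fin M × Fin M => q.1 = k)).card) ≤
      (univ : Finset (Fin M)).card := by
    apply Finset.card_le_card_of_injOn (fun q : Fin M × Fin M => q.2)
    · intro q _
      simp
    · intro q hq q' hq' h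
      simp only [coe_filter, mem_univ, true_and, Set.mem_ofPred_eq] at hq hq'
      simp only at h
      exact Prod.ext (hq.trans hq'.symm) h
  simpa using h

/-- The floor mean on `S`, the first argument elsewhere. -/
def fm (S : Finset (Fin n)) (ρ ρ' : Fin n → Fin M) : Fin n → Fin M :=
  fun l => if l ∈ S then ⟨((ρ l : ℕ) + (ρ' l : ℕ)) / 2, by have := (ρ l).2; have := (ρ' l).2; omega⟩
    else ρ l

lemma card_fm (S : Finset (Fin n)) (m : Fin n → Fin M) :
    ((univ.filter (fun p : (Fin n → Fin M) × (Fin n → Fin M) => fm S p.1 p.2 = m)).card : ℝ) ≤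
      ∏ l, (if l ∈ S then (4 * ((m l : ℕ) : ℝ) + 3) else (M : ℝ)) := by
  classical
  have h : (univ.filter (fun p : (Fin n → Fin M) × (Fin n → Fin M) => fm S p.1 p.2 = m)).card ≤
      (Fintype.piFinset (fun l : Fin n => if l ∈ S then
        (univ.filter (fun q : Fin M × Fin M => ((q.1 : ℕ) + (q.2 : ℕ)) / 2 = (m l : ℕ))) else
        (univ.filter (fun q : Fin M × Fin M => q.1 = m l)))).card := by
    apply Finset.card_le_card_of_injOn
      (fun p : (Fin n → Fin M) × (Fin n → Fin M) => fun l => (p.1 l, p.2 l))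
    · intro p hp
      simp only [coe_filter, mem_univ, true_and, Set.mem_ofPred_eq] at hp
      rw [Finset.mem_coe, Fintype.mem_piFinset]
      intro l
      have hl := congrFun hp l
      unfold fm at hl
      by_cases h : l ∈ S
      · simp only [h, if_true] at hl ⊢
        rw [mem_filter]
        exact ⟨mem_univ _, congrArg Fin.val hl⟩
      · simp only [h, if_false] at hl ⊢
        rw [mem_filter]
        exact ⟨mem_univ _, hl⟩
    · intro p _ p' _ h
      have h' : ∀ l, (p.1 l, p.2 l) = (p'.1 l, p'.2 l) := fun l => congrFun h l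
      ext l
      · exact congrArg (fun q : Fin M × Fin M => (q.1 : ℕ)) (h' l)
      · exact congrArg (fun q : Fin M × Fin M => (q.2 : ℕ)) (h' l)
  rw [Fintype.card_piFinset] at h
  have h2 : ((univ.filter (fun p : (Fin n → Fin M) × (Fin n → Fin M) => fm S p.1 p.2 = m)).card : ℝ) ≤
      ∏ l : Fin n, (((if l ∈ S then
        (univ.filter (fun q : Fin M × Fin M => ((q.1 : ℕ) + (q.2 : ℕ)) / 2 = (m l : ℕ))) else
        (univ.filter (fun q : Fin M × Fin M => q.1 = m l))).card : ℕ) : ℝ) := by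
    exact_mod_cast h
  refine h2.trans (prod_le_prod (fun _ _ => by positivity) (fun l _ => ?_))
  by_cases hl : l ∈ S
  · simp only [hl, if_true]
    exact_mod_cast card_mean (m l : ℕ)
  · simp only [hl, if_false]
    exact_mod_cast card_fst (m l)

open Classical in
/-- The indicator of a proposition. -/
def ind (p : Prop) : ℝ := if p then 1 else 0

lemma ind_nonneg (p : Prop) : 0 ≤ ind p := by unfold ind; split_ifs <;> norm_num
lemma ind_le_one (p : Prop) : ind p ≤ 1 := by unfold ind; split_ifs <;> norm_num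
lemma ind_true {p : Prop} (h : p) : ind p = 1 := by unfold ind; simp [h]
lemma ind_false {p : Prop} (h : ¬ p) : ind p = 0 := by unfold ind; simp [h]
lemma ind_mono {p q : Prop} (h : p → q) : ind p ≤ ind q := by
  by_cases hp : p
  · rw [ind_true hp, ind_true (h hp)]
  · rw [ind_false hp]; exact ind_nonneg q
lemma ind_and (p q : Prop) : ind p * ind q = ind (p ∧ q) := by
  by_cases hp : p <;> by_cases hq : q <;> simp [ind, hp, hq]

/-- The square of the size of a set which is closed under floor means in the directions of `S`. -/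
lemma sq_le (hM : 1 ≤ M) (S : Finset (Fin n)) (X : (Fin n → Fin M) → Prop)
    (hX : ∀ ρ ρ' : Fin n → Fin M, (∀ l, l ∉ S → ρ l = ρ' l) → X ρ → X ρ' → X (fm S ρ ρ')) :
    (∑ ρ, ind (X ρ)) ^ 2 ≤
      (M : ℝ) ^ n * ∑ ρ, ind (X ρ) * ∏ l ∈ S, (4 * (2 * ((ρ l : ℕ) : ℝ) + 1) / M) := by
  classical
  have hM0 : (0 : ℝ) < M := by exact_mod_cast hM
  set N : ℝ := (M : ℝ) ^ n with hN
  have hN0 : 0 < N := by positivity
  set g : (Fin n → Fin M) → ℝ := fun y => ∑ ρ, ind (X (mix S ρ y)) with hg
  have h1 : ∑ y, g y = N * ∑ ρ, ind (X ρ) := sum_mix S (fun ρ => ind (X ρ))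
  have h2 : (∑ y, g y) ^ 2 ≤ N * ∑ y, g y ^ 2 := by
    have := sq_sum_le_card_mul_sum_sq (s := (univ : Finset (Fin n → Fin M))) (f := g)
    rw [card_univ, card_F] at this
    exact this
  have h3 : ∀ y, g y ^ 2 ≤ N * ∑ m, ind (X (mix S m y)) *
      ∏ l ∈ S, (4 * (2 * ((mix S m y l : ℕ) : ℝ) + 1) / M) := by
    intro y
    have e1 : g y ^ 2 = ∑ p : (Fin n → Fin M) × (Fin n → Fin M),
        ind (X (mix S p.1 y)) * ind (X (mix S p.2 y)) := by
      rw [Fintype.sum_prod_type, sq, hg]
      simp only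
      rw [sum_mul_sum]
    have e2 : g y ^ 2 ≤ ∑ p : (Fin n → Fin M) × (Fin n → Fin M), ind (X (mix S (fm S p.1 p.2) y)) := by
      rw [e1]
      apply sum_le_sum
      intro p _
      rw [ind_and]
      apply ind_mono
      rintro ⟨h, h'⟩
      have := hX (mix S p.1 y) (mix S p.2 y) (fun l hl => by simp [mix, hl]) h h'
      have e : fm S (mix S p.1 y) (mix S p.2 y) = mix S (fm S p.1 p.2) y := by
        funext l
        by_cases hl : l ∈ S <;> simp [fm, mix, hl]
      rwa [e] at this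
    have e3 : ∑ p : (Fin n → Fin M) × (Fin n → Fin M), ind (X (mix S (fm S p.1 p.2) y)) =
        ∑ m, ((univ.filter (fun p : (Fin n → Fin M) × (Fin n → Fin M) => fm S p.1 p.2 = m)).card : ℝ) *
          ind (X (mix S m y)) := by
      rw [← Finset.sum_fiberwise (univ : Finset ((Fin n → Fin M) × (Fin n → Fin M)))
        (fun p => fm S p.1 p.2)]
      apply sum_congr rfl
      intro m _
      rw [Finset.sum_congr rfl (g := fun _ => ind (X (mix S m y)))
        (fun p hp => by rw [(mem_filter.1 hp).2]), sum_const, nsmul_eq_mul]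
    rw [e3] at e2
    refine e2.trans ?_
    rw [mul_sum]
    apply sum_le_sum
    intro m _
    have e4 := card_fm S m
    have e5 : ∏ l, (if l ∈ S then (4 * ((m l : ℕ) : ℝ) + 3) else (M : ℝ)) ≤
        N * ∏ l ∈ S, (4 * (2 * ((mix S m y l : ℕ) : ℝ) + 1) / M) := by
      have e6 : N * ∏ l ∈ S, (4 * (2 * ((mix S m y l : ℕ) : ℝ) + 1) / M) =
          ∏ l, (if l ∈ S then (4 * (2 * ((m l : ℕ) : ℝ) + 1)) else (M : ℝ)) := by
        have : N = ∏ _l : Fin n, (M : ℝ) := by simp [hN]
        rw [this]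
        have e7 : ∏ l ∈ S, (4 * (2 * ((mix S m y l : ℕ) : ℝ) + 1) / M) =
            ∏ l : Fin n, (if l ∈ S then (4 * (2 * ((m l : ℕ) : ℝ) + 1) / M) else 1) := by
          rw [Finset.prod_ite_mem]
          simp only [univ_inter]
          apply prod_congr rfl
          intro l hl
          simp [mix, hl]
        rw [e7, ← prod_mul_distrib]
        apply prod_congr rfl
        intro l _
        by_cases hl : l ∈ S
        · simp only [hl, if_true]
          field_simp
        · simp [hl]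
      rw [e6]
      apply prod_le_prod
      · intro l _
        split_ifs <;> positivity
      · intro l _
        split_ifs
        · have : (0 : ℝ) ≤ ((m l : ℕ) : ℝ) := by positivity
          linarith
        · exact le_refl _
    calc ((univ.filter (fun p : (Fin n → Fin M) × (Fin n → Fin M) => fm S p.1 p.2 = m)).card : ℝ) *
          ind (X (mix S m y)) ≤
          (N * ∏ l ∈ S, (4 * (2 * ((mix S m y l : ℕ) : ℝ) + 1) / M)) * ind (X (mix S m y)) :=
        mul_le_mul_of_nonneg_right (e4.trans e5) (ind_nonneg _)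
      _ = _ := by ring
  have h4 : ∑ y, g y ^ 2 ≤ N * (N * ∑ m, ind (X m) * ∏ l ∈ S, (4 * (2 * ((m l : ℕ) : ℝ) + 1) / M)) := by
    rw [← sum_mix S (fun m => ind (X m) * ∏ l ∈ S, (4 * (2 * ((m l : ℕ) : ℝ) + 1) / M)), mul_sum]
    exact sum_le_sum (fun y _ => h3 y)
  have h5 : N ^ 2 * (∑ ρ, ind (X ρ)) ^ 2 ≤
      N ^ 2 * (N * ∑ m, ind (X m) * ∏ l ∈ S, (4 * (2 * ((m l : ℕ) : ℝ) + 1) / M)) := by
    rw [h1] at h2
    calc N ^ 2 * (∑ ρ, ind (X ρ)) ^ 2 = (N * ∑ ρ, ind (X ρ)) ^ 2 := by ring
      _ ≤ N * ∑ y, g y ^ 2 := h2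
      _ ≤ N * (N * (N * ∑ m, ind (X m) * ∏ l ∈ S, (4 * (2 * ((m l : ℕ) : ℝ) + 1) / M))) :=
        mul_le_mul_of_nonneg_left h4 hN0.le
      _ = _ := by ring
  exact le_of_mul_le_mul_left h5 (by positivity)

end mixing

/-! ## Geometry of the cells -/

section geom

variable {n M : ℕ} {A : Finset (Cube n)}

/-- The event. -/
def Ev (P : Pot n A) (t : ℝ) (E S : Finset (Fin n)) (s : Cube n) (r : Fin n → Fin M) : Prop :=
  P.cost M (pt s r) ≤ 2 * t ∧ ∀ l ∈ E, (P.T (pt s r) l ≠ s l ↔ l ∈ S)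

lemma sn_mul_self (b : Bool) : sn b * sn b = 1 := by cases b <;> simp [sn]

lemma sn_not (b : Bool) : sn (!b) = - sn b := by cases b <;> simp [sn]

lemma sn_mul_of_ne {a b : Bool} (h : a ≠ b) : sn a * sn b = -1 := by
  cases a <;> cases b <;> simp [sn] at h ⊢

lemma sn_mul_le (a b : Bool) : sn a * sn b ≤ 1 := by
  cases a <;> cases b <;> simp [sn]

lemma mem_D (P : Pot n A) (s : Cube n) (r : Fin n → Fin M) (l : Fin n) :
    l ∈ P.D (pt s r) ↔ P.T (pt s r) l ≠ s l := by
  unfold Pot.D
  rw [mem_filter]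
  simp only [mem_univ, true_and]
  unfold pt
  have hr : (0 : ℤ) < 2 * ((r l : ℕ) : ℤ) + 1 := by positivity
  cases h1 : P.T (fun l => sn (s l) * (2 * ((r l : ℕ) : ℤ) + 1)) l <;> cases h2 : s l <;>
    simp only [sn] <;> simp <;> omega

lemma abs_pt (s : Cube n) (r : Fin n → Fin M) (l : Fin n) :
    |((pt s r l : ℤ) : ℝ)| = 2 * ((r l : ℕ) : ℝ) + 1 := by
  unfold pt
  have hr : (0 : ℝ) < 2 * ((r l : ℕ) : ℝ) + 1 := by positivity
  cases h2 : s l
  · simp only [sn]
    push_cast
    rw [abs_of_nonpos]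
    · simp
    · simp
      linarith
  · simp only [sn]
    push_cast
    rw [abs_of_nonneg]
    · simp
    · simp
      linarith

lemma cost_pt (P : Pot n A) (s : Cube n) (r : Fin n → Fin M) :
    P.cost M (pt s r) =
      (∑ l, if P.T (pt s r) l ≠ s l then (2 * ((r l : ℕ) : ℝ) + 1) else 0) / M := by
  unfold Pot.cost
  congr 1
  rw [← sum_filter]
  apply sum_congr
  · ext l
    rw [mem_D, mem_filter]
    simp
  · intro l _
    exact abs_pt s r l

lemma T_unique (P : Pot n A) (x : Fin n → ℤ) (a : Cube n) (ha : a ∈ A)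
    (h : ∀ b ∈ A, b ≠ a → (dot b x : ℝ) - P.c b < (dot a x : ℝ) - P.c a) : P.T x = a := by
  by_contra hne
  have h1 := P.best x a ha (fun e => hne e.symm)
  have h2 := h (P.T x) (P.mem x) hne
  linarith

/-- The half sum. -/
lemma key (P : Pot n A) (t : ℝ) (E S : Finset (Fin n)) (hSE : S ⊆ E) (s : Cube n)
    (r r' m : Fin n → Fin M)
    (h : Ev P t E S s r) (h' : Ev P t E S s r') (hT : P.T (pt s r) = P.T (pt s r'))
    (h0 : ∀ l, l ∉ E → 2 * (m l : ℕ) = (r l : ℕ) + (r' l : ℕ))
    (h1 : ∀ l, l ∈ S → 2 * (m l : ℕ) ≤ (r l : ℕ) + (r' l : ℕ))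
    (h2 : ∀ l, l ∈ E → l ∉ S → (r l : ℕ) + (r' l : ℕ) ≤ 2 * (m l : ℕ)) : Ev P t E S s m := by
  have hTm : P.T (pt s m) = P.T (pt s r) := by
    apply T_unique P _ _ (P.mem _)
    intro b hb hba
    have b1 := P.best (pt s r) b hb hba
    have b2 := P.best (pt s r') b hb (by rw [← hT]; exact hba)
    rw [← hT] at b2
    have b3 : dot b (pt s r) + dot b (pt s r') + 2 * dot (P.T (pt s r)) (pt s m) ≥
        dot (P.T (pt s r)) (pt s r) + dot (P.T (pt s r)) (pt s r') + 2 * dot b (pt s m) := by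
      unfold dot
      rw [mul_sum, mul_sum, ← sum_add_distrib, ← sum_add_distrib, ← sum_add_distrib,
        ← sum_add_distrib]
      apply sum_le_sum
      intro l _
      have hkey : (sn (P.T (pt s r) l) - sn (b l)) * (sn (s l) *
          (2 * (2 * ((m l : ℕ) : ℤ) - ((r l : ℕ) : ℤ) - ((r' l : ℕ) : ℤ)))) ≥ 0 := by
        by_cases hlE : l ∈ E
        · by_cases hlS : l ∈ S
          · have hne : P.T (pt s r) l ≠ s l := (h.2 l hlE).2 hlS
            have e1 := sn_mul_of_ne hne
            have e2 : sn (b l) * sn (s l) ≥ -1 := by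
              cases b l <;> cases s l <;> simp [sn]
            have e3 := h1 l hlS
            have e4 : (2 * ((m l : ℕ) : ℤ) - ((r l : ℕ) : ℤ) - ((r' l : ℕ) : ℤ)) ≤ 0 := by
              omega
            nlinarith
          · have heq : P.T (pt s r) l = s l := by
              by_contra hne
              exact hlS ((h.2 l hlE).1 hne)
            have e1 : sn (P.T (pt s r) l) * sn (s l) = 1 := by rw [heq]; exact sn_mul_self _
            have e2 : sn (b l) * sn (s l) ≤ 1 := sn_mul_le _ _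
            have e3 := h2 l hlE hlS
            have e4 : (2 * ((m l : ℕ) : ℤ) - ((r l : ℕ) : ℤ) - ((r' l : ℕ) : ℤ)) ≥ 0 := by
              omega
            nlinarith
        · have e3 := h0 l hlE
          have e4 : (2 * ((m l : ℕ) : ℤ) - ((r l : ℕ) : ℤ) - ((r' l : ℕ) : ℤ)) = 0 := by
            omega
          rw [e4]
          simp
      unfold pt at hkey ⊢
      nlinarith [hkey]
    have b3' : (dot b (pt s r) : ℝ) + dot b (pt s r') + 2 * dot (P.T (pt s r)) (pt s m) ≥
        dot (P.T (pt s r)) (pt s r) + dot (P.T (pt s r)) (pt s r') + 2 * dot b (pt s m) := by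
      exact_mod_cast b3
    linarith
  refine ⟨?_, ?_⟩
  · have c1 := h.1
    have c2 := h'.1
    rw [cost_pt] at c1 c2 ⊢
    rw [hTm]
    rw [← hT] at c2
    rcases Nat.eq_zero_or_pos M with hM | hM
    · subst hM
      simp only [Nat.cast_zero, div_zero] at c1 ⊢
      exact c1
    have hM0 : (0 : ℝ) < M := by exact_mod_cast hM
    rw [div_le_iff₀ hM0] at c1 c2 ⊢
    have c3 : 2 * (∑ l, if P.T (pt s r) l ≠ s l then (2 * ((m l : ℕ) : ℝ) + 1) else 0) ≤
        (∑ l, if P.T (pt s r) l ≠ s l then (2 * ((r l : ℕ) : ℝ) + 1) else 0) +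
        (∑ l, if P.T (pt s r) l ≠ s l then (2 * ((r' l : ℕ) : ℝ) + 1) else 0) := by
      rw [mul_sum, ← sum_add_distrib]
      apply sum_le_sum
      intro l _
      by_cases hl : P.T (pt s r) l ≠ s l
      · simp only [if_pos hl]
        have : 2 * (m l : ℕ) ≤ (r l : ℕ) + (r' l : ℕ) := by
          by_cases hlE : l ∈ E
          · exact h1 l ((h.2 l hlE).1 hl)
          · exact (h0 l hlE).le
        have : 2 * ((m l : ℕ) : ℝ) ≤ (r l : ℕ) + (r' l : ℕ) := by exact_mod_cast this
        linarith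
      · simp only [if_neg hl]
        norm_num
    linarith
  · intro l hl
    rw [hTm]
    exact h.2 l hl

/-- Monotonicity. -/
lemma mono (P : Pot n A) (t : ℝ) (E S : Finset (Fin n)) (hSE : S ⊆ E) (s : Cube n)
    (r m : Fin n → Fin M)
    (h : Ev P t E S s r) (h0 : ∀ l, l ∉ E → m l = r l)
    (h1 : ∀ l, l ∈ S → m l ≤ r l)
    (h2 : ∀ l, l ∈ E → l ∉ S → r l ≤ m l) : Ev P t E S s m := by
  apply key P t E S hSE s r r m h h rfl
  · intro l hl
    rw [h0 l hl]
    ring
  · intro l hl
    have := h1 l hl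
    have : (m l : ℕ) ≤ r l := this
    omega
  · intro l hl hl'
    have := h2 l hl hl'
    have : (r l : ℕ) ≤ m l := this
    omega

/-- Closure under floor means in the directions of `S`. -/
lemma mid (P : Pot n A) (t : ℝ) (E S : Finset (Fin n)) (hSE : S ⊆ E) (s : Cube n)
    (r r' : Fin n → Fin M) (hr : ∀ l, l ∉ S → r l = r' l)
    (h : Ev P t E S s r) (h' : Ev P t E S s r') : Ev P t E S s (fm S r r') := by
  have hT : P.T (pt s r) = P.T (pt s r') := by
    by_contra hne
    have b1 := P.best (pt s r) _ (P.mem (pt s r')) (fun e => hne e.symm)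
    have b2 := P.best (pt s r') _ (P.mem (pt s r)) hne
    have b3 : dot (P.T (pt s r')) (pt s r) + dot (P.T (pt s r)) (pt s r') =
        dot (P.T (pt s r)) (pt s r) + dot (P.T (pt s r')) (pt s r') := by
      unfold dot
      rw [← sum_add_distrib, ← sum_add_distrib]
      apply sum_congr rfl
      intro l _
      by_cases hl : l ∈ S
      · have e1 : P.T (pt s r) l = P.T (pt s r') l := by
          have h1 : P.T (pt s r) l ≠ s l := (h.2 l (hSE hl)).2 hl
          have h2 : P.T (pt s r') l ≠ s l := (h'.2 l (hSE hl)).2 hl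
          revert h1 h2
          generalize P.T (pt s r) l = u
          generalize P.T (pt s r') l = v
          generalize s l = w
          revert u v w
          decide
        rw [e1]
      · have e1 : pt s r l = pt s r' l := by
          unfold pt
          rw [hr l hl]
        rw [e1]
        ring
    have b3' : (dot (P.T (pt s r')) (pt s r) : ℝ) + dot (P.T (pt s r)) (pt s r') =
        dot (P.T (pt s r)) (pt s r) + dot (P.T (pt s r')) (pt s r') := by
      exact_mod_cast b3
    linarith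
  apply key P t E S hSE s r r' _ h h' hT
  · intro l hl
    have hlS : l ∉ S := fun h => hl (hSE h)
    unfold fm
    rw [if_neg hlS, ← hr l hlS]
    ring
  · intro l hl
    unfold fm
    rw [if_pos hl]
    simp only
    omega
  · intro l _ hlS
    unfold fm
    rw [if_neg hlS, ← hr l hlS]
    omega

end geom

/-! ## Harris -/

section harris

variable {n M : ℕ}

/-- Reversal of the coordinates in `S`. -/
def rv (S : Finset (Fin n)) (ρ : Fin n → Fin M) : Fin n → Fin M :=
  fun l => if l ∈ S then (ρ l).rev else ρ l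

lemma rv_invol (S : Finset (Fin n)) : Function.Involutive (rv (n := n) (M := M) S) := by
  intro ρ
  funext l
  unfold rv
  by_cases h : l ∈ S <;> simp [h]

/-- Negative correlation of two events of opposite monotonicity. -/
lemma harris (S : Finset (Fin n)) (X Y : (Fin n → Fin M) → Prop)
    (hX : ∀ ρ ρ' : Fin n → Fin M, (∀ l ∈ S, ρ' l ≤ ρ l) → (∀ l, l ∉ S → ρ l ≤ ρ' l) → X ρ → X ρ')
    (hY : ∀ ρ ρ' : Fin n → Fin M, (∀ l ∈ S, ρ l ≤ ρ' l) → (∀ l, l ∉ S → ρ' l ≤ ρ l) → Y ρ → Y ρ') :
    (M : ℝ) ^ n * ∑ ρ, ind (X ρ) * ind (Y ρ) ≤ (∑ ρ, ind (X ρ)) * ∑ ρ, ind (Y ρ) := by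
  have h := fkg (α := Fin n → Fin M) (β := ℝ) (μ := fun _ => 1)
    (f := fun ρ => ind (X (rv S ρ))) (g := fun ρ => 1 - ind (Y (rv S ρ)))
    (fun _ => zero_le_one) (fun _ => ind_nonneg _) (fun _ => sub_nonneg.2 (ind_le_one _)) ?_ ?_
    (fun _ _ => le_refl _)
  · simp only [one_mul] at h
    have e1 : ∑ ρ, ind (X (rv S ρ)) = ∑ ρ, ind (X ρ) :=
      Equiv.sum_comp ((rv_invol (n := n) (M := M) S).toPerm) (fun ρ => ind (X ρ))
    have e2 : ∑ ρ, (1 - ind (Y (rv S ρ))) = ∑ ρ, (1 - ind (Y ρ)) :=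
      Equiv.sum_comp ((rv_invol (n := n) (M := M) S).toPerm) (fun ρ => 1 - ind (Y ρ))
    have e3 : ∑ ρ, (ind (X (rv S ρ)) * (1 - ind (Y (rv S ρ)))) = ∑ ρ, (ind (X ρ) * (1 - ind (Y ρ))) :=
      Equiv.sum_comp ((rv_invol (n := n) (M := M) S).toPerm) (fun ρ => ind (X ρ) * (1 - ind (Y ρ)))
    rw [e1, e2, e3] at h
    simp only [mul_sub, mul_one, sum_sub_distrib, sum_const, card_univ, nsmul_eq_mul, card_F] at h
    linarith
  · intro ρ ρ' hle
    apply ind_mono
    apply hX
    · intro l hl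
      unfold rv
      simp only [hl, if_true]
      exact Fin.rev_le_rev.2 (hle l)
    · intro l hl
      unfold rv
      simp only [hl, if_false]
      exact hle l
  · intro ρ ρ' hle
    apply sub_le_sub_left
    apply ind_mono
    apply hY
    · intro l hl
      unfold rv
      simp only [hl, if_true]
      exact Fin.rev_le_rev.2 (hle l)
    · intro l hl
      unfold rv
      simp only [hl, if_false]
      exact hle l

end harris

/-! ## Elementary symmetric sums -/

section esymm

lemma bern (x v : ℝ) (hx : 0 ≤ x) (hv : 0 ≤ v) (j : ℕ) :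
    x ^ (j + 1) + (j + 1) * v * x ^ j ≤ (x + v) ^ (j + 1) := by
  induction j with
  | zero => simp
  | succ j ih =>
    have h1 : (x + v) * (x ^ (j + 1) + (j + 1) * v * x ^ j) ≤ (x + v) * (x + v) ^ (j + 1) :=
      mul_le_mul_of_nonneg_left ih (by linarith)
    have h2 : 0 ≤ (j + 1 : ℝ) * v ^ 2 * x ^ j := by positivity
    have e1 : (x + v) * (x ^ (j + 1) + (j + 1) * v * x ^ j) =
      x ^ (j + 2) + (j + 2) * v * x ^ (j + 1) + (j + 1 : ℝ) * v ^ 2 * x ^ j := by ring
    have e2 : (x + v) * (x + v) ^ (j + 1) = (x + v) ^ (j + 2) := by ring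
    rw [e1, e2] at h1
    push_cast
    have e3 : x ^ (j + 1 + 1) + ((j : ℝ) + 1 + 1) * v * x ^ (j + 1) =
      x ^ (j + 2) + (j + 2) * v * x ^ (j + 1) := by ring
    rw [e3]
    show _ ≤ (x + v) ^ (j + 2)
    linarith

lemma esymm_le {ι : Type} [DecidableEq ι] (I : Finset ι) (v : ι → ℝ) (hv : ∀ l, 0 ≤ v l) :
    ∀ j : ℕ, ∑ E ∈ powersetCard j I, ∏ l ∈ E, v l ≤ (∑ l ∈ I, v l) ^ j / (j.factorial : ℝ) := by
  induction I using Finset.induction_on with
  | empty =>
    intro j
    cases j with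
    | zero => simp
    | succ j => rw [powersetCard_eq_empty.2 (by simp)]; simp
  | insert a I ha ih =>
    intro j
    cases j with
    | zero => simp
    | succ j =>
      rw [powersetCard_succ_insert ha, sum_union, sum_image, sum_insert ha]
      · have e1 : ∑ E ∈ powersetCard j I, ∏ l ∈ insert a E, v l =
            v a * ∑ E ∈ powersetCard j I, ∏ l ∈ E, v l := by
          rw [mul_sum]
          apply sum_congr rfl
          intro E hE
          rw [prod_insert]
          intro h
          exact ha ((mem_powersetCard.1 hE).1 h)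
        rw [e1]
        have h1 := ih (j + 1)
        have h2 := ih j
        have hx : 0 ≤ ∑ l ∈ I, v l := sum_nonneg (fun l _ => hv l)
        have h3 := bern (∑ l ∈ I, v l) (v a) hx (hv a) j
        have hf : (0 : ℝ) < (j + 1).factorial := by positivity
        have hf' : (0 : ℝ) < j.factorial := by positivity
        calc _ ≤ (∑ l ∈ I, v l) ^ (j + 1) / ((j + 1).factorial : ℝ) +
              v a * ((∑ l ∈ I, v l) ^ j / (j.factorial : ℝ)) :=
              add_le_add h1 (mul_le_mul_of_nonneg_left h2 (hv a))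
          _ = ((∑ l ∈ I, v l) ^ (j + 1) + (j + 1) * v a * (∑ l ∈ I, v l) ^ j) /
              ((j + 1).factorial : ℝ) := by
              rw [Nat.factorial_succ]
              push_cast
              field_simp
          _ ≤ (v a + ∑ l ∈ I, v l) ^ (j + 1) / ((j + 1).factorial : ℝ) := by
              rw [add_comm (v a)]
              exact div_le_div_of_nonneg_right h3 hf.le
      · intro E hE E' hE' h
        have h1 : a ∉ E := fun h => ha ((mem_powersetCard.1 hE).1 h)
        have h2 : a ∉ E' := fun h => ha ((mem_powersetCard.1 hE').1 h)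
        rw [← erase_insert h1, ← erase_insert h2, h]
      · rw [disjoint_left]
        intro E hE hE'
        rw [mem_image] at hE'
        obtain ⟨E'', _, rfl⟩ := hE'
        exact ha ((mem_powersetCard.1 hE).1 (mem_insert_self a E''))

end esymm

/-! ## The two collision bounds -/

section main

variable {n M : ℕ} {A : Finset (Cube n)}

/-- The weight of a coordinate. -/
def wt (M : ℕ) (k : ℕ) : ℝ := 4 * (2 * (k : ℝ) + 1) / M

lemma wt_nonneg (M k : ℕ) : 0 ≤ wt M k := by unfold wt; positivity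

/-- The conditional probability of the event given the coordinates outside `E`. -/
def FF1 (P : Pot n A) (t : ℝ) (E S : Finset (Fin n)) (s : Cube n) (r : Fin n → Fin M) : ℝ :=
  (∑ ρ, ind (Ev P t E S s (mix E ρ r))) / (M : ℝ) ^ n

/-- Main quantity. -/
def KK (P : Pot n A) (M : ℕ) (t : ℝ) (E S : Finset (Fin n)) (s : Cube n) : ℝ :=
  ∑ r : Fin n → Fin M, ind (Ev P t E S s r) * ∏ l ∈ S, wt M (r l)

lemma FF1_nonneg (P : Pot n A) (t : ℝ) (E S : Finset (Fin n)) (s : Cube n) (r : Fin n → Fin M) :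
    0 ≤ FF1 P t E S s r := by
  unfold FF1
  exact div_nonneg (sum_nonneg (fun _ _ => ind_nonneg _)) (by positivity)

lemma sum_FF1 (hM : 1 ≤ M) (P : Pot n A) (t : ℝ) (E S : Finset (Fin n)) (s : Cube n) :
    ∑ r : Fin n → Fin M, FF1 P t E S s r = ∑ r : Fin n → Fin M, ind (Ev P t E S s r) := by
  have hM0 : (0 : ℝ) < M := by exact_mod_cast hM
  unfold FF1
  rw [← sum_div, sum_mix E (fun r => ind (Ev P t E S s r))]
  field_simp

lemma sum_sq_FF1 (hM : 1 ≤ M) (P : Pot n A) (t : ℝ) (E S : Finset (Fin n)) (hSE : S ⊆ E)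
    (s : Cube n) : ∑ r : Fin n → Fin M, FF1 P t E S s r ^ 2 ≤ KK P M t E S s := by
  have hM0 : (0 : ℝ) < M := by exact_mod_cast hM
  have hN0 : (0 : ℝ) < (M : ℝ) ^ n := by positivity
  have h1 : ∀ r : Fin n → Fin M, FF1 P t E S s r ^ 2 ≤
      (∑ ρ, ind (Ev P t E S s (mix E ρ r)) * ∏ l ∈ S, wt M (mix E ρ r l)) / (M : ℝ) ^ n := by
    intro r
    have := sq_le hM S (fun ρ => Ev P t E S s (mix E ρ r)) (by
      intro ρ ρ' hρ h h'
      have hh := mid P t E S hSE s (mix E ρ r) (mix E ρ' r) (by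
        intro l hl
        unfold mix
        by_cases hlE : l ∈ E
        · simp only [hlE, if_true]
          exact hρ l hl
        · simp [hlE]) h h'
      have e : fm S (mix E ρ r) (mix E ρ' r) = mix E (fm S ρ ρ') r := by
        funext l
        by_cases hl : l ∈ S
        · have hlE := hSE hl
          simp [fm, mix, hl, hlE]
        · simp [fm, mix, hl]
      rwa [e] at hh)
    unfold FF1
    rw [div_pow, div_le_div_iff₀ (by positivity) hN0]
    have e2 : ∑ ρ : Fin n → Fin M, ind (Ev P t E S s (mix E ρ r)) * ∏ l ∈ S, wt M (mix E ρ r l) =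
        ∑ ρ : Fin n → Fin M, ind (Ev P t E S s (mix E ρ r)) *
          ∏ l ∈ S, (4 * (2 * ((ρ l : ℕ) : ℝ) + 1) / M) := by
      apply sum_congr rfl
      intro ρ _
      congr 1
      apply prod_congr rfl
      intro l hl
      unfold wt mix
      rw [if_pos (hSE hl)]
    rw [e2]
    calc _ ≤ ((M : ℝ) ^ n * ∑ ρ, ind (Ev P t E S s (mix E ρ r)) *
          ∏ l ∈ S, (4 * (2 * ((ρ l : ℕ) : ℝ) + 1) / M)) * (M : ℝ) ^ n :=
          mul_le_mul_of_nonneg_right this hN0.le
      _ = _ := by ring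
  refine (sum_le_sum (fun r _ => h1 r)).trans ?_
  rw [← sum_div, sum_mix E (fun r => ind (Ev P t E S s r) * ∏ l ∈ S, wt M (r l))]
  unfold KK
  rw [mul_div_assoc, mul_comm, div_mul_cancel₀ _ hN0.ne']

/-- AM-GM. -/
lemma amgm (c c' x y : ℝ) (hc : 0 < c) (hcc : c * c' = 1) :
    x * y ≤ (c * x ^ 2 + c' * y ^ 2) / 2 := by
  have hc' : 0 < c' := by
    by_contra h
    push Not at h
    nlinarith
  have h : 0 ≤ c' * (c * x - y) ^ 2 := by positivity
  have e : c' * (c * x - y) ^ 2 = c * x ^ 2 * (c * c') - 2 * (c * c') * (x * y) + c' * y ^ 2 := by ring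
  rw [e, hcc] at h
  linarith

/-- The weight of a subset. -/
def cw (κ : ℝ) (E S : Finset (Fin n)) : ℝ := ∏ l ∈ E, (if l ∈ S then κ else κ⁻¹)

lemma cw_pos (κ : ℝ) (hκ : 0 < κ) (E S : Finset (Fin n)) : 0 < cw κ E S := by
  unfold cw
  apply prod_pos
  intro l _
  split_ifs <;> positivity

lemma cw_mul (κ : ℝ) (hκ : 0 < κ) (E S : Finset (Fin n)) : cw κ E S * cw κ E (E \ S) = 1 := by
  unfold cw
  rw [← prod_mul_distrib]
  apply prod_eq_one
  intro l hl
  by_cases h : l ∈ S
  · simp [h, hκ.ne']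
  · simp [h, hl, hκ.ne']

/-- The sum over all the patterns. -/
def HH (P : Pot n A) (M : ℕ) (t κ : ℝ) (E : Finset (Fin n)) : ℝ :=
  ∑ s : Cube n, ∑ S ∈ E.powerset, cw κ E S * KK P M t E S s

lemma flipV_invol (S : Finset (Fin n)) : Function.Involutive (flipV (n := n) S) := by
  intro x
  funext l
  unfold flipV
  simp

lemma flipV_ne {S : Finset (Fin n)} {l : Fin n} (hl : l ∈ S) (x : Cube n) : flipV S x l = !(x l) := by
  unfold flipV
  simp [hl]

/-- The symmetrised sum. -/
lemma sym_sum (P : Pot n A) (t κ : ℝ) (hκ : 0 < κ) (E W : Finset (Fin n))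
    (a : Finset (Fin n) → Cube n → ℝ)
    (ha : ∀ s, ∀ S ∈ E.powerset, a S s ≤
      (cw κ E S * KK P M t E S s + cw κ E (E \ S) * KK P M t E (E \ S) (flipV (E ∪ W) s)) / 2) :
    ∑ s, ∑ S ∈ E.powerset, a S s ≤ HH P M t κ E := by
  have h1 : ∑ s, ∑ S ∈ E.powerset, a S s ≤ ∑ s, ∑ S ∈ E.powerset,
      (cw κ E S * KK P M t E S s + cw κ E (E \ S) * KK P M t E (E \ S) (flipV (E ∪ W) s)) / 2 :=
    sum_le_sum (fun s _ => sum_le_sum (fun S hS => ha s S hS))
  refine h1.trans ?_
  have h2 : ∀ s : Cube n, ∑ S ∈ E.powerset, cw κ E (E \ S) * KK P M t E (E \ S) (flipV (E ∪ W) s) =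
      ∑ S ∈ E.powerset, cw κ E S * KK P M t E S (flipV (E ∪ W) s) := by
    intro s
    apply sum_nbij' (fun S => E \ S) (fun S => E \ S)
    · intro S _
      rw [mem_powerset]
      exact sdiff_subset
    · intro S _
      rw [mem_powerset]
      exact sdiff_subset
    · intro S hS
      exact Finset.sdiff_sdiff_eq_self (mem_powerset.1 hS)
    · intro S hS
      exact Finset.sdiff_sdiff_eq_self (mem_powerset.1 hS)
    · intro S _
      rfl
  have h3 : ∑ s : Cube n, ∑ S ∈ E.powerset, cw κ E S * KK P M t E S (flipV (E ∪ W) s) = HH P M t κ E :=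
    Equiv.sum_comp ((flipV_invol (E ∪ W)).toPerm)
      (fun s => ∑ S ∈ E.powerset, cw κ E S * KK P M t E S s)
  simp only [← sum_div, sum_add_distrib]
  rw [sum_congr rfl (fun s _ => h2 s), h3]
  unfold HH
  linarith

lemma term1 (hM : 1 ≤ M) (P : Pot n A) (t κ : ℝ) (hκ : 0 < κ) (E S : Finset (Fin n)) (hSE : S ⊆ E)
    (s s' : Cube n) : ∑ r : Fin n → Fin M, ind (Ev P t E S s r) * ind (Ev P t E (E \ S) s' r) ≤
    (cw κ E S * KK P M t E S s + cw κ E (E \ S) * KK P M t E (E \ S) s') / 2 := by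
  have hM0 : (0 : ℝ) < M := by exact_mod_cast hM
  have hN0 : (0 : ℝ) < (M : ℝ) ^ n := by positivity
  have hSE' : E \ S ⊆ E := sdiff_subset
  have h1 : (M : ℝ) ^ n * ∑ r : Fin n → Fin M, ind (Ev P t E S s r) * ind (Ev P t E (E \ S) s' r) ≤
      (M : ℝ) ^ n * ∑ r : Fin n → Fin M, FF1 P t E S s r * FF1 P t E (E \ S) s' r := by
    rw [← sum_mix E (fun r => ind (Ev P t E S s r) * ind (Ev P t E (E \ S) s' r)), mul_sum]
    apply sum_le_sum
    intro r _
    have h := harris (n := n) (M := M) S (fun ρ => Ev P t E S s (mix E ρ r))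
      (fun ρ => Ev P t E (E \ S) s' (mix E ρ r)) (by
        intro ρ ρ' h1 h2 h
        apply mono P t E S hSE s (mix E ρ r) (mix E ρ' r) h
        · intro l hl
          simp [mix, hl]
        · intro l hl
          simp only [mix, if_pos (hSE hl)]
          exact h1 l hl
        · intro l hl hl'
          simp only [mix, if_pos hl]
          exact h2 l hl') (by
        intro ρ ρ' h1 h2 h
        apply mono P t E (E \ S) hSE' s' (mix E ρ r) (mix E ρ' r) h
        · intro l hl
          simp [mix, hl]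
        · intro l hl
          simp only [mix, if_pos (hSE' hl)]
          exact h2 l (mem_sdiff.1 hl).2
        · intro l hl hl'
          simp only [mix, if_pos hl]
          apply h1 l
          by_contra hc
          exact hl' (mem_sdiff.2 ⟨hl, hc⟩))
    unfold FF1
    rw [div_mul_div_comm, mul_div_assoc', le_div_iff₀ (by positivity)]
    calc _ = ((M : ℝ) ^ n * ∑ ρ, ind (Ev P t E S s (mix E ρ r)) * ind (Ev P t E (E \ S) s' (mix E ρ r))) *
          (M : ℝ) ^ n := by ring
      _ ≤ _ := mul_le_mul_of_nonneg_right h hN0.le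
      _ = _ := by ring
  have h2 := le_of_mul_le_mul_left h1 hN0
  refine h2.trans ?_
  have h3 : ∑ r : Fin n → Fin M, FF1 P t E S s r * FF1 P t E (E \ S) s' r ≤
      ∑ r : Fin n → Fin M, (cw κ E S * FF1 P t E S s r ^ 2 + cw κ E (E \ S) * FF1 P t E (E \ S) s' r ^ 2) / 2 :=
    sum_le_sum (fun r _ => amgm _ _ _ _ (cw_pos κ hκ E S) (cw_mul κ hκ E S))
  refine h3.trans ?_
  rw [← sum_div, sum_add_distrib, ← mul_sum, ← mul_sum]
  have h4 := mul_le_mul_of_nonneg_left (sum_sq_FF1 (M := M) hM P t E S hSE s) (cw_pos κ hκ E S).le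
  have h5 := mul_le_mul_of_nonneg_left (sum_sq_FF1 (M := M) hM P t E (E \ S) hSE' s')
    (cw_pos κ hκ E (E \ S)).le
  linarith

lemma sq_sum_ind (hM : 1 ≤ M) (P : Pot n A) (t : ℝ) (E S : Finset (Fin n)) (hSE : S ⊆ E)
    (s : Cube n) : (∑ r : Fin n → Fin M, ind (Ev P t E S s r)) ^ 2 ≤ (M : ℝ) ^ n * KK P M t E S s := by
  rw [← sum_FF1 hM P t E S s]
  have := sq_sum_le_card_mul_sum_sq (s := (univ : Finset (Fin n → Fin M)))
    (f := fun r => FF1 P t E S s r)
  rw [card_univ, card_F] at this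
  exact this.trans (mul_le_mul_of_nonneg_left (sum_sq_FF1 hM P t E S hSE s) (by positivity))

lemma term2 (hM : 1 ≤ M) (P : Pot n A) (t κ : ℝ) (hκ : 0 < κ) (E S : Finset (Fin n)) (hSE : S ⊆ E)
    (s s' : Cube n) : (∑ r : Fin n → Fin M, ind (Ev P t E S s r)) *
      (∑ r : Fin n → Fin M, ind (Ev P t E (E \ S) s' r)) / (M : ℝ) ^ n ≤
    (cw κ E S * KK P M t E S s + cw κ E (E \ S) * KK P M t E (E \ S) s') / 2 := by
  have hM0 : (0 : ℝ) < M := by exact_mod_cast hM
  have hN0 : (0 : ℝ) < (M : ℝ) ^ n := by positivity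
  rw [div_le_iff₀ hN0]
  refine (amgm _ _ _ _ (cw_pos κ hκ E S) (cw_mul κ hκ E S)).trans ?_
  have h4 := mul_le_mul_of_nonneg_left (sq_sum_ind (M := M) hM P t E S hSE s) (cw_pos κ hκ E S).le
  have h5 := mul_le_mul_of_nonneg_left (sq_sum_ind (M := M) hM P t E (E \ S) sdiff_subset s')
    (cw_pos κ hκ E (E \ S)).le
  linarith

/-- The sum over the sets `E`. -/
lemma sum_HH (hn : 1 ≤ n) (hM : 1 ≤ M) (P : Pot n A) (t : ℝ) (ht : 0 < t) (W : Finset (Fin n)) (j : ℕ) :
    ∃ κ : ℝ, 0 < κ ∧ ∑ E ∈ powersetCard j (univ \ W), HH P M t κ E ≤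
      (Real.sqrt (32 * t * n)) ^ j / (j.factorial : ℝ) * (2 * M) ^ n := by
  have hM0 : (0 : ℝ) < M := by exact_mod_cast hM
  have hn0 : (0 : ℝ) < n := by exact_mod_cast hn
  set q : ℝ := Real.sqrt (8 * t * n) with hq
  have hq0 : 0 < q := Real.sqrt_pos.2 (by positivity)
  have hqq : q ^ 2 = 8 * t * n := Real.sq_sqrt (by positivity)
  have h32 : Real.sqrt (32 * t * n) = 2 * q := by
    have : (32 * t * n : ℝ) = (2 * q) ^ 2 := by rw [mul_pow, hqq]; ring
    rw [this, Real.sqrt_sq (by positivity)]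
  refine ⟨q / (8 * t), by positivity, ?_⟩
  set κ : ℝ := q / (8 * t) with hκ
  have hκ0 : 0 < κ := by positivity
  rw [h32]
  -- the weights
  set v : Cube n → (Fin n → Fin M) → Fin n → ℝ := fun s r l =>
    if P.T (pt s r) l ≠ s l then κ * wt M (r l) else κ⁻¹ with hv
  have hv0 : ∀ s r l, 0 ≤ v s r l := by
    intro s r l
    rw [hv]
    simp only
    split_ifs
    · exact mul_nonneg hκ0.le (wt_nonneg _ _)
    · positivity
  have hvsum : ∀ s r, P.cost M (pt s r) ≤ 2 * t → ∑ l ∈ univ \ W, v s r l ≤ 2 * q := by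
    intro s r hc
    have h1 : ∑ l ∈ univ \ W, v s r l ≤ ∑ l, v s r l :=
      sum_le_sum_of_subset_of_nonneg (subset_univ _) (fun l _ _ => hv0 s r l)
    have h2 : ∀ l, v s r l ≤ κ * 4 / M * (if P.T (pt s r) l ≠ s l then (2 * ((r l : ℕ) : ℝ) + 1) else 0)
        + κ⁻¹ := by
      intro l
      rw [hv]
      simp only
      split_ifs
      · unfold wt
        have : 0 < κ⁻¹ := by positivity
        have e : κ * (4 * (2 * ((r l : ℕ) : ℝ) + 1) / M) = κ * 4 / M * (2 * ((r l : ℕ) : ℝ) + 1) := by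
          ring
        linarith
      · simp
    have h3 : ∑ l, v s r l ≤ κ * 4 * P.cost M (pt s r) + n * κ⁻¹ := by
      refine (sum_le_sum (fun l _ => h2 l)).trans ?_
      rw [sum_add_distrib, ← mul_sum, cost_pt]
      simp only [sum_const, card_univ, Fintype.card_fin, nsmul_eq_mul]
      apply le_of_eq
      ring
    have h4 : κ * 4 * P.cost M (pt s r) ≤ κ * 4 * (2 * t) :=
      mul_le_mul_of_nonneg_left hc (by positivity)
    have h5 : κ * 4 * (2 * t) = q := by
      rw [hκ]
      field_simp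
      ring
    have h6 : (n : ℝ) * κ⁻¹ = q := by
      rw [hκ, inv_div]
      have : (n : ℝ) * (8 * t / q) = (8 * t * n) / q := by ring
      rw [this, ← hqq, sq, mul_div_assoc, div_self hq0.ne', mul_one]
    linarith
  -- exchange of the sums
  have hE : ∀ E : Finset (Fin n), ∀ s : Cube n, ∀ r : Fin n → Fin M,
      ∑ S ∈ E.powerset, cw κ E S * (ind (Ev P t E S s r) * ∏ l ∈ S, wt M (r l)) ≤
        ind (P.cost M (pt s r) ≤ 2 * t) * ∏ l ∈ E, v s r l := by
    intro E s r
    set S0 : Finset (Fin n) := E.filter (fun l => P.T (pt s r) l ≠ s l) with hS0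
    have hS0m : S0 ∈ E.powerset := by
      rw [mem_powerset]
      exact filter_subset _ _
    rw [sum_eq_single_of_mem S0 hS0m]
    · have e1 : cw κ E S0 * ∏ l ∈ S0, wt M (r l) = ∏ l ∈ E, v s r l := by
        unfold cw
        rw [hS0, prod_filter, ← prod_mul_distrib]
        apply prod_congr rfl
        intro l hl
        rw [hv]
        simp only [mem_filter, hl, true_and]
        split_ifs <;> simp
      have e2 : cw κ E S0 * (ind (Ev P t E S0 s r) * ∏ l ∈ S0, wt M (r l)) =
          ind (Ev P t E S0 s r) * ∏ l ∈ E, v s r l := by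
        rw [← e1]
        ring
      rw [e2]
      exact mul_le_mul_of_nonneg_right (ind_mono (fun h => h.1)) (prod_nonneg (fun l _ => hv0 s r l))
    · intro S hS hne
      have : ¬ Ev P t E S s r := by
        intro h
        apply hne
        ext l
        rw [hS0, mem_filter]
        constructor
        · intro hl
          exact ⟨mem_powerset.1 hS hl, (h.2 l (mem_powerset.1 hS hl)).2 hl⟩
        · rintro ⟨hl, hl'⟩
          exact (h.2 l hl).1 hl'
      rw [ind_false this]
      ring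
  calc ∑ E ∈ powersetCard j (univ \ W), HH P M t κ E
      ≤ ∑ E ∈ powersetCard j (univ \ W), ∑ s : Cube n, ∑ r : Fin n → Fin M,
          ind (P.cost M (pt s r) ≤ 2 * t) * ∏ l ∈ E, v s r l := by
        apply sum_le_sum
        intro E _
        unfold HH KK
        apply sum_le_sum
        intro s _
        simp only [mul_sum]
        rw [sum_comm]
        exact sum_le_sum (fun r _ => hE E s r)
    _ = ∑ s : Cube n, ∑ r : Fin n → Fin M, ind (P.cost M (pt s r) ≤ 2 * t) *
          ∑ E ∈ powersetCard j (univ \ W), ∏ l ∈ E, v s r l := by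
        rw [sum_comm]
        apply sum_congr rfl
        intro s _
        rw [sum_comm]
        apply sum_congr rfl
        intro r _
        rw [mul_sum]
    _ ≤ ∑ _s : Cube n, ∑ _r : Fin n → Fin M, (2 * q) ^ j / (j.factorial : ℝ) := by
        apply sum_le_sum
        intro s _
        apply sum_le_sum
        intro r _
        have hpos : (0 : ℝ) ≤ (2 * q) ^ j / (j.factorial : ℝ) := by positivity
        by_cases hc : P.cost M (pt s r) ≤ 2 * t
        · rw [ind_true hc, one_mul]
          refine (esymm_le (univ \ W) (v s r) (hv0 s r) j).trans ?_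
          apply div_le_div_of_nonneg_right _ (by positivity)
          exact pow_le_pow_left₀ (sum_nonneg (fun l _ => hv0 s r l)) (hvsum s r hc) j
        · rw [ind_false hc, zero_mul]
          exact hpos
    _ = (2 * q) ^ j / (j.factorial : ℝ) * (2 * M) ^ n := by
        simp only [sum_const, card_univ, nsmul_eq_mul, card_F]
        have : (Fintype.card (Cube n) : ℝ) = 2 ^ n := by simp
        rw [this, mul_pow]
        ring

/-- The event of the statement implies the event for a pattern. -/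
lemma pattern (P : Pot n A) (t : ℝ) (E W : Finset (Fin n)) (s : Cube n) (r r' : Fin n → Fin M)
    (h1 : P.cost M (pt s r) ≤ 2 * t) (h2 : P.cost M (pt (flipV (E ∪ W) s) r') ≤ 2 * t)
    (h3 : ∀ l ∈ E, P.T (pt s r) l = P.T (pt (flipV (E ∪ W) s) r') l) :
    (1 : ℝ) ≤ ∑ S ∈ E.powerset, ind (Ev P t E S s r) * ind (Ev P t E (E \ S) (flipV (E ∪ W) s) r') := by
  set S0 : Finset (Fin n) := E.filter (fun l => P.T (pt s r) l ≠ s l) with hS0
  have hS0m : S0 ∈ E.powerset := by
    rw [mem_powerset]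
    exact filter_subset _ _
  have e1 : Ev P t E S0 s r := by
    refine ⟨h1, ?_⟩
    intro l hl
    rw [hS0, mem_filter]
    simp [hl]
  have e2 : Ev P t E (E \ S0) (flipV (E ∪ W) s) r' := by
    refine ⟨h2, ?_⟩
    intro l hl
    rw [← h3 l hl, flipV_ne (mem_union_left W hl), mem_sdiff, hS0, mem_filter]
    generalize P.T (pt s r) l = u
    generalize s l = w
    simp only [hl, true_and]
    revert u w
    decide
  calc (1 : ℝ) = ind (Ev P t E S0 s r) * ind (Ev P t E (E \ S0) (flipV (E ∪ W) s) r') := by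
        rw [ind_true e1, ind_true e2, one_mul]
    _ ≤ _ := single_le_sum
        (f := fun S => ind (Ev P t E S s r) * ind (Ev P t E (E \ S) (flipV (E ∪ W) s) r'))
        (fun S _ => mul_nonneg (ind_nonneg _) (ind_nonneg _)) hS0m

/-- Collisions, same magnitudes. -/
theorem t_COL1 : S_COL1 := by
  intro n M hn hM A P W j t ht
  obtain ⟨κ, hκ, hsum⟩ := sum_HH (M := M) hn hM P t ht W j
  refine le_trans (sum_le_sum (fun E _ => ?_)) hsum
  classical
  have h1 : ((univ.filter (fun q : Cube n × (Fin n → Fin M) =>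
        P.cost M (pt q.1 q.2) ≤ 2 * t ∧ P.cost M (pt (flipV (E ∪ W) q.1) q.2) ≤ 2 * t ∧
        ∀ l ∈ E, P.T (pt q.1 q.2) l = P.T (pt (flipV (E ∪ W) q.1) q.2) l)).card : ℝ) ≤
      ∑ s : Cube n, ∑ S ∈ E.powerset, ∑ r : Fin n → Fin M,
        ind (Ev P t E S s r) * ind (Ev P t E (E \ S) (flipV (E ∪ W) s) r) := by
    rw [card_eq_sum_ones, Nat.cast_sum, sum_filter, Fintype.sum_prod_type]
    apply sum_le_sum
    intro s _
    rw [sum_comm]
    apply sum_le_sum
    intro r _
    split_ifs with h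
    · push_cast
      exact pattern P t E W s r r h.1 h.2.1 h.2.2
    · exact sum_nonneg (fun S _ => mul_nonneg (ind_nonneg _) (ind_nonneg _))
  refine h1.trans (sym_sum P t κ hκ E W _ (fun s S hS => ?_))
  exact term1 hM P t κ hκ E S (mem_powerset.1 hS) s _

/-- Collisions, independent magnitudes. -/
theorem t_COL2 : S_COL2 := by
  intro n M hn hM A P W j t ht
  have hM0 : (0 : ℝ) < M := by exact_mod_cast hM
  have hN0 : (0 : ℝ) < (M : ℝ) ^ n := by positivity
  obtain ⟨κ, hκ, hsum⟩ := sum_HH (M := M) hn hM P t ht W j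
  have hsum' := mul_le_mul_of_nonneg_right hsum hN0.le
  rw [sum_mul] at hsum'
  have hsum'' : ∑ E ∈ powersetCard j (univ \ W), HH P M t κ E * (M : ℝ) ^ n ≤
      (Real.sqrt (32 * t * n)) ^ j / (j.factorial : ℝ) * ((2 * M) ^ n * M ^ n) := by
    refine hsum'.trans (le_of_eq ?_)
    ring
  refine le_trans (sum_le_sum (fun E _ => ?_)) hsum''
  classical
  have h1 : ((univ.filter (fun q : Cube n × (Fin n → Fin M) × (Fin n → Fin M) =>
        P.cost M (pt q.1 q.2.1) ≤ 2 * t ∧ P.cost M (pt (flipV (E ∪ W) q.1) q.2.2) ≤ 2 * t ∧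
        ∀ l ∈ E, P.T (pt q.1 q.2.1) l = P.T (pt (flipV (E ∪ W) q.1) q.2.2) l)).card : ℝ) ≤
      ∑ s : Cube n, ∑ S ∈ E.powerset, ∑ p : (Fin n → Fin M) × (Fin n → Fin M),
        ind (Ev P t E S s p.1) * ind (Ev P t E (E \ S) (flipV (E ∪ W) s) p.2) := by
    rw [card_eq_sum_ones, Nat.cast_sum, sum_filter, Fintype.sum_prod_type]
    apply sum_le_sum
    intro s _
    rw [sum_comm]
    apply sum_le_sum
    intro p _
    split_ifs with h
    · push_cast
      exact pattern P t E W s p.1 p.2 h.1 h.2.1 h.2.2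
    · exact sum_nonneg (fun S _ => mul_nonneg (ind_nonneg _) (ind_nonneg _))
  refine h1.trans ?_
  have h2 := sym_sum (M := M) P t κ hκ E W
    (fun S s => (∑ r : Fin n → Fin M, ind (Ev P t E S s r)) *
      (∑ r : Fin n → Fin M, ind (Ev P t E (E \ S) (flipV (E ∪ W) s) r)) / (M : ℝ) ^ n)
    (fun s S hS => term2 hM P t κ hκ E S (mem_powerset.1 hS) s _)
  have h3 := mul_le_mul_of_nonneg_right h2 hN0.le
  refine le_trans (le_of_eq ?_) h3
  rw [sum_mul]
  apply sum_congr rfl
  intro s _
  rw [sum_mul]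
  apply sum_congr rfl
  intro S _
  rw [div_mul_cancel₀ _ hN0.ne', Fintype.sum_prod_type, sum_mul_sum]

end main

end Pool.Agent.K1H9.ST
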