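import Pool.Agent.K1H9.ST.Line

/-!
# The stretch of the transport map: `S_STR2` and `S_STR`
-/

set_option autoImplicit false

noncomputable section

namespace Pool.Agent.K1H9.ST

open Finset hiding box
open Pool.Agent.K1H64.ST

variable {n M : ℕ} {A : Finset (Cube n)}

/-! ## Cost -/

lemma cost_eq (P : Pot n A) (x : Fin n → ℤ) :
    P.cost M x = P.eta M x + P.zeta M (P.T x) := by
  have h1 : (∑ l, |x l| : ℤ) - dot (P.T x) x = 2 * ∑ l ∈ P.D x, |x l| := by
    unfold dot Pot.D
    rw [sum_filter, mul_sum, ← sum_sub_distrib]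
    apply sum_congr rfl
    intro l _
    cases P.T x l <;> simp only [sn] <;> simp <;> split_ifs with h
    · rw [abs_of_pos h]; ring
    · rw [abs_of_nonpos (by omega)]; ring
    · rw [abs_of_neg h]; ring
    · rw [abs_of_nonneg (by omega)]; ring
  have h2 : ((∑ l, |x l| : ℤ) : ℝ) - (dot (P.T x) x : ℝ) = 2 * ∑ l ∈ P.D x, (|x l| : ℝ) := by
    have : (((∑ l, |x l| : ℤ) - dot (P.T x) x : ℤ) : ℝ) = ((2 * ∑ l ∈ P.D x, |x l| : ℤ) : ℝ) := by
      rw [h1]
    push_cast at this ⊢
    exact this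
  unfold Pot.cost Pot.eta Pot.zeta
  have h3 : ((∑ l, |x l| : ℤ) - ((dot (P.T x) x : ℝ) - P.c (P.T x))) / (2 * M) + - P.c (P.T x) / (2 * M) =
      (((∑ l, |x l| : ℤ) : ℝ) - (dot (P.T x) x : ℝ)) / (2 * M) := by ring
  rw [h3, h2, mul_div_mul_left _ _ (by norm_num : (2 : ℝ) ≠ 0)]

lemma le_exp4 (y : ℝ) : y ≤ 4 * Real.exp (y / 4) := by
  have := Real.add_one_le_exp (y / 4)
  linarith

/-- The sum of the costs. -/
lemma sum_cost_le (P : Pot n A) (C : ℝ)
    (h1 : ∑ x ∈ grid n M, Real.exp (P.eta M x / 4) ≤ C * (2 * M) ^ n)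
    (h2 : ∑ x ∈ grid n M, Real.exp (P.zeta M (P.T x) / 4) ≤ C * (2 * M) ^ n) :
    ∑ x ∈ grid n M, P.cost M x ≤ 8 * C * (2 * M) ^ n := by
  have h3 : ∑ x ∈ grid n M, P.cost M x ≤ ∑ x ∈ grid n M,
      (4 * Real.exp (P.eta M x / 4) + 4 * Real.exp (P.zeta M (P.T x) / 4)) := by
    apply sum_le_sum
    intro x _
    rw [cost_eq]
    exact add_le_add (le_exp4 _) (le_exp4 _)
  rw [sum_add_distrib, ← mul_sum, ← mul_sum] at h3
  linarith

lemma sum_odd (h : ℕ) : ∑ j ∈ range h, (2 * (j : ℝ) + 1) = (h : ℝ) ^ 2 := by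
  induction h with
  | zero => simp
  | succ h ih => rw [sum_range_succ, ih]; push_cast; ring

/-- Jumps away from the centre cost a lot. -/
lemma noncentral_dir (P : Pot n A) (hM : 2 ≤ M) (l : Fin n) (b : Bool) :
    (M : ℝ) / 16 * (((grid n M).filter (fun p => (p, l, b) ∈ P.JE M ∧ (M : ℤ) < |p l|)).card : ℝ) ≤
      ∑ x ∈ grid n M, (if l ∈ P.D x then |(x l : ℝ)| / M else 0) := by
  classical
  have hM0 : (0 : ℝ) < M := by positivity
  set PP := (grid n M).filter (fun p => (p, l, b) ∈ P.JE M ∧ (M : ℤ) < |p l|) with hPP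
  set h := M / 2 with hh
  set f : (Fin n → ℤ) → ℝ := fun x => if l ∈ P.D x then |(x l : ℝ)| / M else 0 with hf
  set g : (Fin n → ℤ) × ℕ → (Fin n → ℤ) := fun y =>
    Function.update y.1 l (if 0 < y.1 l then 2 * (y.2 : ℤ) + 1 else - (2 * (y.2 : ℤ) + 1)) with hg
  have key : ∀ y ∈ PP ×ˢ range h, g y ∈ grid n M ∧ f (g y) = (2 * (y.2 : ℝ) + 1) / M := by
    rintro ⟨p, j⟩ hy
    rw [mem_product, hPP, mem_filter, mem_range] at hy
    obtain ⟨⟨hp, hJ, hpl⟩, hj⟩ := hy
    simp only at hp hJ hpl hj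
    have hbp := (K1H85.ST.mem_box.1 (K1H85.ST.mem_grid.1 hp l))
    have hj2 : 2 * (j : ℤ) + 1 ≤ M - 1 := by omega
    have hmem : g (p, j) ∈ grid n M := by
      rw [hg]
      apply K1H85.ST.update_mem_grid hp
      rw [K1H85.ST.mem_box]
      simp only
      split_ifs
      · exact ⟨⟨by omega, by omega⟩, ⟨j, by ring⟩⟩
      · exact ⟨⟨by omega, by omega⟩, ⟨-(j : ℤ) - 1, by ring⟩⟩
    refine ⟨hmem, ?_⟩
    rw [mem_JE] at hJ
    simp only at hJ
    have hs := jump_sides P p l b hJ.2.2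
    have hk : ∀ k, k ≠ l → p k = g (p, j) k := by
      intro k hk
      rw [hg]
      simp [Function.update_of_ne hk]
    have hk' : ∀ k, k ≠ l → nb p l b k = g (p, j) k := by
      intro k hk'
      rw [nb_of_ne _ _ _ hk']
      exact hk k hk'
    have hD : l ∈ P.D (g (p, j)) ∧ |(g (p, j) l : ℤ)| = 2 * (j : ℤ) + 1 := by
      by_cases hpos : 0 < p l
      · have hgl : g (p, j) l = 2 * (j : ℤ) + 1 := by rw [hg]; simp [hpos]
        have hpM : (M : ℤ) < p l := by rwa [abs_of_pos hpos] at hpl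
        have hTl : P.T (g (p, j)) l = false := by
          cases b
          · have := beyond P l (nb p l false) (g (p, j)) hk' (by
              rw [hs.1, nb_self, hgl]
              simp only [sn]
              simp
              omega)
            rw [this, hs.1]
          · have := beyond P l p (g (p, j)) hk (by
              rw [hs.2, hgl]
              simp only [sn]
              simp
              omega)
            rw [this, hs.2]
            rfl
        refine ⟨?_, ?_⟩
        · unfold Pot.D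
          rw [mem_filter, hTl, hgl]
          refine ⟨mem_univ _, ?_⟩
          simp [sn]
          omega
        · rw [hgl, abs_of_pos (by omega)]
      · have hne : p l ≠ 0 := by
          have := hbp.2
          rintro e
          rw [e] at this
          obtain ⟨u, hu⟩ := this
          omega
        have hneg : p l < 0 := by omega
        have hgl : g (p, j) l = -(2 * (j : ℤ) + 1) := by rw [hg]; simp [hpos]
        have hpM : (M : ℤ) < - p l := by rwa [abs_of_neg hneg] at hpl
        have hTl : P.T (g (p, j)) l = true := by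
          cases b
          · have := beyond P l p (g (p, j)) hk (by
              rw [hs.2, hgl]
              simp only [sn]
              simp
              omega)
            rw [this, hs.2]
            rfl
          · have := beyond P l (nb p l true) (g (p, j)) hk' (by
              rw [hs.1, nb_self, hgl]
              simp only [sn]
              simp
              omega)
            rw [this, hs.1]
        refine ⟨?_, ?_⟩
        · unfold Pot.D
          rw [mem_filter, hTl, hgl]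
          refine ⟨mem_univ _, ?_⟩
          simp [sn]
          omega
        · rw [hgl, abs_of_neg (by omega)]
          ring
    rw [hf]
    simp only
    rw [if_pos hD.1]
    have : |((g (p, j) l : ℤ) : ℝ)| = 2 * (j : ℝ) + 1 := by
      have h := hD.2
      have h' : ((|g (p, j) l| : ℤ) : ℝ) = ((2 * (j : ℤ) + 1 : ℤ) : ℝ) := by rw [h]
      push_cast at h'
      exact h'
    rw [this]
  have inj : Set.InjOn g (PP ×ˢ range h : Finset ((Fin n → ℤ) × ℕ)) := by
    rintro ⟨p, j⟩ hy ⟨q, k⟩ hy' he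
    rw [Finset.mem_coe, mem_product, hPP, mem_filter] at hy hy'
    simp only at hy hy'
    have hpq : p = q := by
      apply jump_unique P l b p q hy.1.2.1 hy'.1.2.1
      intro i hi
      have := congrFun he i
      rw [hg] at this
      simpa [Function.update_of_ne hi] using this
    subst hpq
    have := congrFun he l
    rw [hg] at this
    simp only [Function.update_self] at this
    have : j = k := by
      split_ifs at this <;> omega
    rw [this]
  have h1 : ∑ y ∈ PP ×ˢ range h, f (g y) ≤ ∑ x ∈ grid n M, f x := by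
    rw [← sum_image inj]
    apply sum_le_sum_of_subset_of_nonneg
    · intro x hx
      rw [mem_image] at hx
      obtain ⟨y, hy, rfl⟩ := hx
      exact (key y hy).1
    · intro x _ _
      rw [hf]
      simp only
      split_ifs <;> positivity
  have h2 : ∑ y ∈ PP ×ˢ range h, f (g y) = (PP.card : ℝ) * ((h : ℝ) ^ 2 / M) := by
    rw [sum_congr rfl (fun y hy => (key y hy).2), sum_product]
    simp only [← sum_div, sum_odd, sum_const, nsmul_eq_mul]
    rw [mul_div_assoc]
  rw [h2] at h1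
  refine le_trans ?_ h1
  rw [mul_comm]
  apply mul_le_mul_of_nonneg_left _ (by positivity)
  have hh2 : (M : ℝ) / 4 ≤ h := by
    have : M ≤ 4 * h := by omega
    have : (M : ℝ) ≤ 4 * h := by exact_mod_cast this
    linarith
  rw [le_div_iff₀ hM0]
  nlinarith

/-- The number of jump edges away from the centre. -/
lemma noncentral (P : Pot n A) (hM : 2 ≤ M) (hn : 1 ≤ n) (C : ℝ)
    (h1 : ∑ x ∈ grid n M, P.cost M x ≤ 8 * C * (2 * M) ^ n) :
    ∑ t ∈ P.JE M, (if (M : ℤ) < |t.1 t.2.1| then (1 : ℝ) else 0) ≤ 512 * C * (2 * M) ^ (n - 1) := by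
  have hM0 : (0 : ℝ) < M := by positivity
  have h2 : ∀ (l : Fin n) (b : Bool), ∑ p ∈ grid n M, (if (p, l, b) ∈ P.JE M then
      (if (M : ℤ) < |p l| then (1 : ℝ) else 0) else 0) ≤
      16 / M * ∑ x ∈ grid n M, (if l ∈ P.D x then |(x l : ℝ)| / M else 0) := by
    intro l b
    have e : ∑ p ∈ grid n M, (if (p, l, b) ∈ P.JE M then
      (if (M : ℤ) < |p l| then (1 : ℝ) else 0) else 0) =
      (((grid n M).filter (fun p => (p, l, b) ∈ P.JE M ∧ (M : ℤ) < |p l|)).card : ℝ) := by
      simp only [← ite_and]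
      rw [← sum_filter]
      simp
    rw [e]
    have := noncentral_dir P hM l b
    rw [div_mul_eq_mul_div, div_le_iff₀ (by norm_num)] at this
    rw [div_mul_eq_mul_div, le_div_iff₀ hM0]
    linarith
  rw [sum_JE]
  simp only
  have h3 : ∑ p ∈ grid n M, ∑ i : Fin n, ∑ b : Bool, (if (p, i, b) ∈ P.JE M then
      (if (M : ℤ) < |p i| then (1 : ℝ) else 0) else 0) ≤ 2 * (16 / M * ∑ x ∈ grid n M, P.cost M x) := by
    rw [sum_comm]
    have h4 : ∀ i : Fin n, ∑ p ∈ grid n M, ∑ b : Bool, (if (p, i, b) ∈ P.JE M then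
        (if (M : ℤ) < |p i| then (1 : ℝ) else 0) else 0) ≤
        2 * (16 / M * ∑ x ∈ grid n M, (if i ∈ P.D x then |(x i : ℝ)| / M else 0)) := by
      intro i
      rw [sum_comm]
      refine (sum_le_sum (fun b _ => h2 i b)).trans ?_
      simp
    refine (sum_le_sum (fun i _ => h4 i)).trans ?_
    rw [← mul_sum, ← mul_sum, sum_comm]
    apply le_of_eq
    congr 2
    apply sum_congr rfl
    intro x _
    unfold Pot.cost
    rw [sum_div, ← sum_filter]
    apply sum_congr _ (fun _ _ => rfl)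
    ext l
    simp
  refine h3.trans ?_
  have h5 : 2 * (16 / M * ∑ x ∈ grid n M, P.cost M x) ≤ 2 * (16 / M * (8 * C * (2 * M) ^ n)) := by
    apply mul_le_mul_of_nonneg_left _ (by norm_num)
    exact mul_le_mul_of_nonneg_left h1 (by positivity)
  refine h5.trans (le_of_eq ?_)
  obtain ⟨m, rfl⟩ : ∃ m, n = m + 1 := ⟨n - 1, by omega⟩
  simp only [Nat.add_sub_cancel]
  rw [pow_succ]
  field_simp
  ring

/-! ## Full pairs -/

/-- The coordinates where `a` and `T p` differ. -/
def Kd (P : Pot n A) (p : Fin n → ℤ) (a : Cube n) : Finset (Fin n) :=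
  univ.filter (fun l => a l ≠ P.T p l)

lemma card_Kd (P : Pot n A) (p : Fin n → ℤ) (a : Cube n) :
    (Kd P p a).card = hammingDist a (P.T p) := rfl

lemma mem_Kd (P : Pot n A) (p : Fin n → ℤ) (a : Cube n) (l : Fin n) :
    l ∈ Kd P p a ↔ a l ≠ P.T p l := by
  unfold Kd
  simp

lemma full_JE (P : Pot n A) (p : Fin n → ℤ) (hp : p ∈ grid n M) (a : Cube n) (hF : P.Full M p a)
    (l : Fin n) (hl : l ∈ Kd P p a) : (p, l, a l) ∈ P.JE M ∧ P.T (nb p l (a l)) = a := by
  rw [mem_Kd] at hl
  have := hF.2 l hl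
  refine ⟨?_, this.2⟩
  rw [mem_JE]
  refine ⟨hp, this.1, ?_⟩
  simp only
  rw [this.2]
  exact hF.1

open Classical in
/-- Sum over full pairs and their coordinates. -/
lemma sum_full_le (P : Pot n A) (φ : (Fin n → ℤ) × Fin n × Bool → ℝ) (hφ : ∀ t, 0 ≤ φ t) :
    ∑ p ∈ grid n M, ∑ a ∈ A, (if P.Full M p a then ∑ l ∈ Kd P p a, φ (p, l, a l) else 0) ≤
      ∑ t ∈ P.JE M, φ t := by
  rw [sum_JE]
  apply sum_le_sum
  intro p hp
  have h1 : ∀ a ∈ A, (if P.Full M p a then ∑ l ∈ Kd P p a, φ (p, l, a l) else 0) =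
      ∑ l : Fin n, ∑ b : Bool, (if (P.Full M p a ∧ l ∈ Kd P p a) ∧ a l = b then φ (p, l, b) else 0) := by
    intro a _
    have e : ∀ l : Fin n, ∑ b : Bool,
        (if (P.Full M p a ∧ l ∈ Kd P p a) ∧ a l = b then φ (p, l, b) else 0) =
        if P.Full M p a ∧ l ∈ Kd P p a then φ (p, l, a l) else 0 := by
      intro l
      by_cases hc : P.Full M p a ∧ l ∈ Kd P p a
      · simp only [hc, true_and, if_true]
        simp
      · simp [hc]
    simp only [e]
    by_cases hF : P.Full M p a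
    · simp only [hF, true_and, if_true]
      rw [← sum_filter]
      apply sum_congr _ (fun _ _ => rfl)
      ext l
      simp
    · simp [hF]
  rw [sum_congr rfl h1, sum_comm]
  apply sum_le_sum
  intro l _
  rw [sum_comm]
  apply sum_le_sum
  intro b _
  rw [← sum_filter, sum_const, nsmul_eq_mul]
  by_cases hJ : (p, l, b) ∈ P.JE M
  · rw [if_pos hJ]
    have hc : (A.filter (fun a => (P.Full M p a ∧ l ∈ Kd P p a) ∧ a l = b)).card ≤ 1 := by
      rw [card_le_one]
      intro a ha a' ha'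
      rw [mem_filter] at ha ha'
      have e1 := (full_JE P p hp a ha.2.1.1 l ha.2.1.2).2
      have e2 := (full_JE P p hp a' ha'.2.1.1 l ha'.2.1.2).2
      rw [← e1, ← e2, ha.2.2, ha'.2.2]
    have hc' : ((A.filter (fun a => (P.Full M p a ∧ l ∈ Kd P p a) ∧ a l = b)).card : ℝ) ≤ 1 := by
      exact_mod_cast hc
    nlinarith [hφ (p, l, b)]
  · rw [if_neg hJ]
    have hc : (A.filter (fun a => (P.Full M p a ∧ l ∈ Kd P p a) ∧ a l = b)) = ∅ := by
      rw [filter_eq_empty_iff]
      rintro a _ ⟨⟨hF, hl⟩, rfl⟩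
      exact hJ (full_JE P p hp a hF l hl).1
    rw [hc]
    simp

/-- The rank, strictly below the neighbour, is the weak rank at the point itself. -/
lemma rk_eq_rkw (S : Finset (Fin n → ℤ)) (hS : S ⊆ grid n M) (p : Fin n → ℤ) (hp : p ∈ grid n M)
    (l : Fin n) (b : Bool) : rk S b l (nb p l b) = rkw S b l p := by
  have e1 : pre S l (nb p l b) = pre S l p := by
    unfold pre
    apply filter_congr
    intro z _
    constructor
    · intro h k hk
      rw [h k hk, nb_of_ne _ _ _ (ne_of_lt hk)]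
    · intro h k hk
      rw [h k hk, nb_of_ne _ _ _ (ne_of_lt hk)]
  unfold rk rkw
  rw [e1]
  congr 3
  apply filter_congr
  intro z hz
  have hzg : z ∈ grid n M := hS (mem_filter.1 hz).1
  obtain ⟨u, hu⟩ := odd_of_grid hzg l
  obtain ⟨v, hv⟩ := odd_of_grid hp l
  rw [nb_self]
  cases b <;> simp only [sn] <;> simp <;> omega

/-- The weak rank depends only on the coordinates up to `l`. -/
lemma rkw_congr (S : Finset (Fin n → ℤ)) (l : Fin n) (b : Bool) (x y : Fin n → ℤ)
    (h : ∀ k, k ≤ l → x k = y k) : rkw S b l x = rkw S b l y := by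
  have e1 : pre S l x = pre S l y := by
    unfold pre
    apply filter_congr
    intro z _
    constructor
    · intro h' k hk
      rw [h' k hk, h k hk.le]
    · intro h' k hk
      rw [h' k hk, h k hk.le]
  unfold rkw
  rw [e1, h l le_rfl]

lemma rk_nonneg (S : Finset (Fin n → ℤ)) (l : Fin n) (b : Bool) (x : Fin n → ℤ) :
    0 ≤ rk S b l x := by
  unfold rk
  positivity

/-- Condition for the small-rank case. -/
def Gc (P : Pot n A) (M : ℕ) (p : Fin n → ℤ) (a : Cube n) (k : ℕ) (m : Fin n) : Prop :=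
  a m ≠ P.T p m ∧ |p m| ≤ (M : ℤ) ∧ ∃ J' : Finset (Fin n), J'.card = (k + 3) / 4 ∧
    ∀ l ∈ J', l < m ∧ rkw (P.cell M a) (a l) l p ≤ k / (24 * n)

/-- The sum of the ranks of a pair. -/
def sg (P : Pot n A) (M : ℕ) (p : Fin n → ℤ) (a : Cube n) : ℝ :=
  ∑ l ∈ Kd P p a, rk (P.cell M a) (a l) l (nb p l (a l))

open Classical in
/-- The pointwise inequality. -/
lemma pt_ineq (P : Pot n A) (p : Fin n → ℤ) (hp : p ∈ grid n M) (a : Cube n)
    (hn : 1 ≤ n) :
    ((Kd P p a).card : ℝ) ^ 2 ≤ 16 * ((Kd P p a).card : ℝ) +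
      2 * n * (((Kd P p a).filter (fun l => (M : ℤ) < |p l|)).card : ℝ) +
      192 * n * sg P M p a +
      (if ∃ m, Gc P M p a (Kd P p a).card m then ((Kd P p a).card : ℝ) ^ 2 else 0) := by
  set k := (Kd P p a).card with hk
  have hn0 : (0 : ℝ) < n := by exact_mod_cast hn
  have hkn : (k : ℝ) ≤ n := by
    have : k ≤ n := by
      have := card_le_univ (Kd P p a)
      simpa using this
    exact_mod_cast this
  have hsg : 0 ≤ sg P M p a := by
    unfold sg
    exact sum_nonneg (fun l _ => rk_nonneg _ _ _ _)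
  have hlast : (0 : ℝ) ≤ (if ∃ m, Gc P M p a k m then (k : ℝ) ^ 2 else 0) := by
    split_ifs <;> positivity
  set Knc := (Kd P p a).filter (fun l => (M : ℤ) < |p l|) with hKnc
  -- case 0
  by_cases h0 : k < 16
  · have h0' : (k : ℝ) ≤ 16 := by exact_mod_cast h0.le
    have : (k : ℝ) ^ 2 ≤ 16 * k := by nlinarith [Nat.cast_nonneg (α := ℝ) k]
    have h2 : (0 : ℝ) ≤ 2 * n * (Knc.card : ℝ) := by positivity
    have h3 : (0 : ℝ) ≤ 192 * n * sg P M p a := by positivity
    linarith
  push Not at h0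
  have h0' : (16 : ℝ) ≤ k := by exact_mod_cast h0
  by_cases h1 : k ≤ 2 * Knc.card
  · have h1' : (k : ℝ) ≤ 2 * Knc.card := by exact_mod_cast h1
    have : (k : ℝ) ^ 2 ≤ 2 * n * (Knc.card : ℝ) := by nlinarith
    have h3 : (0 : ℝ) ≤ 192 * n * sg P M p a := by positivity
    linarith
  push Not at h1
  by_cases h2 : (k : ℝ) ^ 2 ≤ 192 * n * sg P M p a
  · have h2' : (0 : ℝ) ≤ 2 * n * (Knc.card : ℝ) := by positivity
    linarith
  push Not at h2
  -- the small rank case
  have hG : ∃ m, Gc P M p a k m := by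
    set Kc := (Kd P p a).filter (fun l => ¬ (M : ℤ) < |p l|) with hKc
    have hcard : Knc.card + Kc.card = k := by
      rw [hKnc, hKc, hk]
      exact card_filter_add_card_filter_not (s := Kd P p a) (fun l => (M : ℤ) < |p l|)
    have hne : Kc.Nonempty := by
      rw [← card_pos]
      omega
    set m := Kc.max' hne with hm
    have hmK : m ∈ Kc := max'_mem _ _
    have hmK' := hmK
    rw [hKc, mem_filter] at hmK'
    set J := Kc.erase m with hJ
    have hJcard : J.card = Kc.card - 1 := card_erase_of_mem hmK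
    have hJlt : ∀ l ∈ J, l < m := by
      intro l hl
      rw [hJ, mem_erase] at hl
      exact lt_of_le_of_ne (le_max' Kc l hl.2) hl.1
    have hJK : ∀ l ∈ J, l ∈ Kd P p a := by
      intro l hl
      rw [hJ, mem_erase, hKc, mem_filter] at hl
      exact hl.2.1
    set Jb := J.filter (fun l => ¬ (rk (P.cell M a) (a l) l (nb p l (a l)) ≤ k / (24 * n))) with hJb
    set Jg := J.filter (fun l => rk (P.cell M a) (a l) l (nb p l (a l)) ≤ k / (24 * n)) with hJg
    have hcard2 : Jg.card + Jb.card = J.card := by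
      rw [hJg, hJb]
      exact card_filter_add_card_filter_not (s := J)
        (fun l => rk (P.cell M a) (a l) l (nb p l (a l)) ≤ k / (24 * n))
    have hbad : (Jb.card : ℝ) * (k / (24 * n)) ≤ sg P M p a := by
      calc (Jb.card : ℝ) * (k / (24 * n)) = ∑ l ∈ Jb, (k / (24 * n) : ℝ) := by
            rw [sum_const, nsmul_eq_mul]
        _ ≤ ∑ l ∈ Jb, rk (P.cell M a) (a l) l (nb p l (a l)) := by
            apply sum_le_sum
            intro l hl
            rw [hJb, mem_filter] at hl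
            exact (not_le.1 hl.2).le
        _ ≤ sg P M p a := by
            unfold sg
            apply sum_le_sum_of_subset_of_nonneg
            · intro l hl
              exact hJK l (mem_filter.1 hl).1
            · intro l _ _
              exact rk_nonneg _ _ _ _
    have hbad2 : 8 * (Jb.card : ℝ) < k := by
      have h3 : 192 * n * ((Jb.card : ℝ) * (k / (24 * n))) < (k : ℝ) ^ 2 :=
        lt_of_le_of_lt (mul_le_mul_of_nonneg_left hbad (by positivity)) h2
      have h4 : 192 * n * ((Jb.card : ℝ) * (k / (24 * n))) = 8 * (Jb.card : ℝ) * k := by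
        field_simp
        ring
      rw [h4, sq] at h3
      exact lt_of_mul_lt_mul_right h3 (by positivity)
    have hbad3 : 8 * Jb.card < k := by exact_mod_cast hbad2
    have hgood : (k + 3) / 4 ≤ Jg.card := by omega
    obtain ⟨J', hJ'sub, hJ'card⟩ := exists_subset_card_eq hgood
    refine ⟨m, ?_, ?_, J', hJ'card, ?_⟩
    · exact (mem_Kd P p a m).1 hmK'.1
    · exact not_lt.1 hmK'.2
    · intro l hl
      have hlg := hJ'sub hl
      rw [hJg, mem_filter] at hlg
      refine ⟨hJlt l hlg.1, ?_⟩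
      rw [← rk_eq_rkw (P.cell M a) (filter_subset _ _) p hp l (a l)]
      exact hlg.2
  rw [if_pos hG]
  have h2' : (0 : ℝ) ≤ 2 * n * (Knc.card : ℝ) := by positivity
  have h3 : (0 : ℝ) ≤ 192 * n * sg P M p a := by positivity
  linarith [Nat.cast_nonneg (α := ℝ) k]

/-! ## Counting the pairs with small ranks -/

/-- Points with many small ranks in their own cell. -/
def Bk (P : Pot n A) (M j : ℕ) (u : ℝ) : Finset (Fin n → ℤ) := open Classical in
  (grid n M).filter (fun X => ∃ J' : Finset (Fin n), J'.card = j ∧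
    ∀ l ∈ J', rkw (P.cell M (P.T X)) (P.T X l) l X ≤ u)

lemma sum_cell (P : Pot n A) : ∑ a ∈ A, ((P.cell M a).card : ℝ) = (2 * M) ^ n := by
  have h := card_eq_sum_card_fiberwise (s := grid n M) (t := A) (f := P.T)
    (fun x _ => P.mem x)
  rw [K1H85.ST.card_grid] at h
  have h' : (((2 * M) ^ n : ℕ) : ℝ) = ∑ a ∈ A, ((P.cell M a).card : ℝ) := by
    rw [h]
    push_cast
    rfl
  rw [← h']
  push_cast
  ring

lemma card_Bk (hR : S_RANK) (P : Pot n A) (j : ℕ) (u : ℝ) (hu : 0 ≤ u) :
    ((Bk P M j u).card : ℝ) ≤ (n.choose j : ℝ) * u ^ j * (2 * M) ^ n := by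
  classical
  have h1 : Bk P M j u ⊆ A.biUnion (fun a => (powersetCard j (univ : Finset (Fin n))).biUnion
      (fun J' => (P.cell M a).filter (fun x => ∀ l ∈ J', rkw (P.cell M a) (a l) l x ≤ u))) := by
    intro X hX
    unfold Bk at hX
    rw [mem_filter] at hX
    obtain ⟨hX, J', hJ', h⟩ := hX
    rw [mem_biUnion]
    refine ⟨P.T X, P.mem X, ?_⟩
    rw [mem_biUnion]
    refine ⟨J', mem_powersetCard.2 ⟨subset_univ _, hJ'⟩, ?_⟩
    rw [mem_filter]
    exact ⟨mem_filter.2 ⟨hX, rfl⟩, h⟩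
  have h2 : ((Bk P M j u).card : ℝ) ≤ ∑ a ∈ A, ∑ J' ∈ powersetCard j (univ : Finset (Fin n)),
      (((P.cell M a).filter (fun x => ∀ l ∈ J', rkw (P.cell M a) (a l) l x ≤ u)).card : ℝ) := by
    have := (card_le_card h1).trans (card_biUnion_le.trans (sum_le_sum (fun a _ => card_biUnion_le)))
    exact_mod_cast this
  refine h2.trans ?_
  have h3 : ∀ a ∈ A, ∑ J' ∈ powersetCard j (univ : Finset (Fin n)),
      (((P.cell M a).filter (fun x => ∀ l ∈ J', rkw (P.cell M a) (a l) l x ≤ u)).card : ℝ) ≤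
      (n.choose j : ℝ) * u ^ j * ((P.cell M a).card : ℝ) := by
    intro a _
    have h4 : ∀ J' ∈ powersetCard j (univ : Finset (Fin n)),
        (((P.cell M a).filter (fun x => ∀ l ∈ J', rkw (P.cell M a) (a l) l x ≤ u)).card : ℝ) ≤
        u ^ j * ((P.cell M a).card : ℝ) := by
      intro J' hJ'
      have := hR n (P.cell M a) a J' u hu
      rw [(mem_powersetCard.1 hJ').2] at this
      exact this
    refine (sum_le_sum h4).trans (le_of_eq ?_)
    rw [sum_const, card_powersetCard, card_univ, Fintype.card_fin, nsmul_eq_mul]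
    ring
  refine (sum_le_sum h3).trans (le_of_eq ?_)
  rw [← mul_sum, sum_cell]

/-- The numerical bound. -/
lemma choose_bound (k : ℕ) (hn : 1 ≤ n) :
    (n.choose ((k + 3) / 4) : ℝ) * ((k : ℝ) / (24 * n)) ^ ((k + 3) / 4) ≤ (1 / 2 : ℝ) ^ ((k + 3) / 4) := by
  set j := (k + 3) / 4 with hj
  have hn0 : (0 : ℝ) < n := by exact_mod_cast hn
  have hkj : (k : ℝ) ≤ 4 * j := by
    have : k ≤ 4 * j := by omega
    exact_mod_cast this
  have h1 : (n.choose j : ℝ) ≤ (n : ℝ) ^ j / (j.factorial : ℝ) := Nat.choose_le_pow_div j n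
  have h2 : (j : ℝ) ^ j / (j.factorial : ℝ) ≤ Real.exp j := Real.pow_div_factorial_le_exp j (by positivity) j
  have h3 : Real.exp (j : ℝ) ≤ 3 ^ j := by
    have : Real.exp (j : ℝ) = (Real.exp 1) ^ j := by
      rw [← Real.exp_nat_mul, mul_one]
    rw [this]
    apply pow_le_pow_left₀ (Real.exp_pos 1).le
    have := Real.exp_one_lt_d9
    linarith
  have hf : (0 : ℝ) < j.factorial := by positivity
  calc (n.choose j : ℝ) * ((k : ℝ) / (24 * n)) ^ j
      ≤ ((n : ℝ) ^ j / (j.factorial : ℝ)) * ((4 * j : ℝ) / (24 * n)) ^ j := by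
        apply mul_le_mul h1 _ (by positivity) (by positivity)
        apply pow_le_pow_left₀ (by positivity)
        apply div_le_div_of_nonneg_right hkj (by positivity)
    _ = (1 / 6) ^ j * ((j : ℝ) ^ j / (j.factorial : ℝ)) := by
        have : ((4 * j : ℝ) / (24 * n)) = (1 / 6) * (j / n) := by
          field_simp
          ring
        rw [this, mul_pow, div_pow (j : ℝ) (n : ℝ)]
        field_simp
    _ ≤ (1 / 6) ^ j * 3 ^ j := by
        apply mul_le_mul_of_nonneg_left (h2.trans h3) (by positivity)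
    _ = (1 / 2 : ℝ) ^ j := by
        rw [← mul_pow]
        norm_num

/-- Points beyond `p` in the direction of `a` on the `m`-line. -/
def Rm (M : ℕ) (p : Fin n → ℤ) (a : Cube n) (m : Fin n) : Finset (Fin n → ℤ) :=
  (grid n M).filter (fun X => (∀ i, i ≠ m → X i = p i) ∧ sn (a m) * p m < sn (a m) * X m)

lemma card_Rm (p : Fin n → ℤ) (hp : p ∈ grid n M) (a : Cube n) (m : Fin n) (hpm : |p m| ≤ (M : ℤ)) :
    M / 2 ≤ (Rm M p a m).card := by
  have h : (range (M / 2)).card ≤ (Rm M p a m).card := by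
    apply card_le_card_of_injOn
      (fun j : ℕ => Function.update p m (sn (a m) * (2 * (M : ℤ) - 1 - 2 * j)))
    · intro j hj
      rw [Finset.mem_coe, mem_range] at hj
      rw [Finset.mem_coe]
      unfold Rm
      rw [mem_filter]
      rw [abs_le] at hpm
      refine ⟨?_, ?_, ?_⟩
      · apply K1H85.ST.update_mem_grid hp
        rw [K1H85.ST.mem_box]
        cases a m <;> simp only [sn]
        · simp
          refine ⟨⟨by omega, by omega⟩, ⟨(j : ℤ) - M, by ring⟩⟩
        · simp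
          refine ⟨by omega, ⟨(M : ℤ) - 1 - j, by ring⟩⟩
      · intro i hi
        simp [Function.update_of_ne hi]
      · have hu : (Function.update p m (sn (a m) * (2 * (M : ℤ) - 1 - 2 * j))) m =
            sn (a m) * (2 * (M : ℤ) - 1 - 2 * j) := Function.update_self _ _ _
        simp only
        rw [hu]
        cases a m <;> simp only [sn] <;> simp <;> omega
    · intro j _ j' _ he
      have := congrFun he m
      simp only [Function.update_self] at this
      cases h : a m <;> rw [h] at this <;> simp only [sn] at this <;> simp at this <;> omega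
  simpa using h

open Classical in
/-- For a fixed coordinate `m`. -/
lemma count_m (P : Pot n A) (k : ℕ) (m : Fin n) :
    ∑ p ∈ grid n M, ∑ a ∈ A, (if P.Full M p a ∧ Gc P M p a k m then ((Rm M p a m).card : ℝ) else 0) ≤
      ((Bk P M ((k + 3) / 4) (k / (24 * n))).card : ℝ) := by
  set Ω := ((grid n M ×ˢ A) ×ˢ grid n M).filter (fun y => (P.Full M y.1.1 y.1.2 ∧
    Gc P M y.1.1 y.1.2 k m) ∧ y.2 ∈ Rm M y.1.1 y.1.2 m) with hΩ
  have h1 : ∑ p ∈ grid n M, ∑ a ∈ A,
      (if P.Full M p a ∧ Gc P M p a k m then ((Rm M p a m).card : ℝ) else 0) = (Ω.card : ℝ) := by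
    rw [hΩ, card_filter]
    push_cast
    rw [sum_product, sum_product]
    apply sum_congr rfl
    intro p _
    apply sum_congr rfl
    intro a _
    simp only
    by_cases hc : P.Full M p a ∧ Gc P M p a k m
    · simp only [hc, true_and, if_true, and_true]
      rw [← sum_filter]
      simp only [sum_const, nsmul_eq_mul, mul_one]
      congr 2
      ext X
      rw [mem_filter]
      constructor
      · intro h
        exact ⟨(mem_filter.1 h).1, h⟩
      · exact fun h => h.2
    · simp only [hc, false_and, if_false, sum_const_zero]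
  rw [h1]
  have facts : ∀ y ∈ Ω, P.T y.2 = y.1.2 ∧ (y.1.1, m, y.1.2 m) ∈ P.JE M ∧
      (∀ i, i ≠ m → y.2 i = y.1.1 i) := by
    rintro ⟨⟨p, a⟩, X⟩ hy
    rw [hΩ, mem_filter] at hy
    simp only at hy ⊢
    obtain ⟨hy0, ⟨hF, hG⟩, hX⟩ := hy
    rw [mem_product, mem_product] at hy0
    have hp : p ∈ grid n M := hy0.1.1
    have hm : m ∈ Kd P p a := (mem_Kd P p a m).2 hG.1
    have hJ := full_JE P p hp a hF m hm
    unfold Rm at hX
    rw [mem_filter] at hX
    refine ⟨?_, hJ.1, hX.2.1⟩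
    have hb := beyond P m (nb p m (a m)) X (fun k hk => by
      rw [nb_of_ne _ _ _ hk, hX.2.1 k hk]) (by
      rw [hJ.2, nb_self]
      obtain ⟨u, hu⟩ := odd_of_grid hp m
      obtain ⟨v, hv⟩ := odd_of_grid hX.1 m
      have h3 := hX.2.2
      cases h : a m <;> rw [h] at h3 <;> simp only [sn] at h3 ⊢ <;> simp at h3 ⊢ <;> omega)
    rw [hb, hJ.2]
  have h2 : Ω.card ≤ (Bk P M ((k + 3) / 4) (k / (24 * n))).card := by
    apply card_le_card_of_injOn (fun y => y.2)
    · rintro ⟨⟨p, a⟩, X⟩ hy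
      have hf := facts _ hy
      rw [Finset.mem_coe, hΩ, mem_filter] at hy
      simp only at hy hf
      obtain ⟨hy0, ⟨hF, hG⟩, hX⟩ := hy
      rw [Finset.mem_coe]
      unfold Bk
      rw [mem_filter]
      unfold Rm at hX
      rw [mem_filter] at hX
      refine ⟨hX.1, ?_⟩
      obtain ⟨_, _, J', hJ', h⟩ := hG
      refine ⟨J', hJ', ?_⟩
      intro l hl
      rw [hf.1, rkw_congr (P.cell M a) l (a l) X p (fun k hk =>
        hf.2.2 k (ne_of_lt (lt_of_le_of_lt hk (h l hl).1)))]
      exact (h l hl).2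
    · rintro ⟨⟨p, a⟩, X⟩ hy ⟨⟨p', a'⟩, X'⟩ hy' he
      have hf := facts _ hy
      have hf' := facts _ hy'
      simp only at hf hf' he
      subst he
      have ha : a = a' := by rw [← hf.1, ← hf'.1]
      subst ha
      have hp : p = p' := by
        apply jump_unique P m (a m) p p' hf.2.1 hf'.2.1
        intro i hi
        rw [← hf.2.2 i hi, ← hf'.2.2 i hi]
      subst hp
      rfl
  exact_mod_cast h2

open Classical in
/-- The number of the full pairs with small ranks. -/
lemma count_G (hR : S_RANK) (P : Pot n A) (hn : 1 ≤ n) (hM : 2 ≤ M) (k : ℕ) :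
    ∑ p ∈ grid n M, ∑ a ∈ A, (if P.Full M p a ∧ ∃ m, Gc P M p a k m then (1 : ℝ) else 0) ≤
      8 * n * (1 / 2 : ℝ) ^ ((k + 3) / 4) * (2 * M) ^ (n - 1) := by
  have hM0 : (0 : ℝ) < M := by positivity
  have hn0 : (0 : ℝ) < n := by exact_mod_cast hn
  have h1 : (M : ℝ) / 4 * ∑ p ∈ grid n M, ∑ a ∈ A,
      (if P.Full M p a ∧ ∃ m, Gc P M p a k m then (1 : ℝ) else 0) ≤
      ∑ m : Fin n, ∑ p ∈ grid n M, ∑ a ∈ A,
        (if P.Full M p a ∧ Gc P M p a k m then ((Rm M p a m).card : ℝ) else 0) := by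
    have e : ∑ m : Fin n, ∑ p ∈ grid n M, ∑ a ∈ A,
        (if P.Full M p a ∧ Gc P M p a k m then ((Rm M p a m).card : ℝ) else 0) =
        ∑ p ∈ grid n M, ∑ a ∈ A, ∑ m : Fin n,
        (if P.Full M p a ∧ Gc P M p a k m then ((Rm M p a m).card : ℝ) else 0) := by
      rw [sum_comm]
      apply sum_congr rfl
      intro p _
      rw [sum_comm]
    rw [e, mul_sum]
    apply sum_le_sum
    intro p hp
    rw [mul_sum]
    apply sum_le_sum
    intro a _
    split_ifs with hc
    · obtain ⟨hF, m, hm⟩ := hc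
      have h2 : (M : ℝ) / 4 ≤ (if P.Full M p a ∧ Gc P M p a k m then ((Rm M p a m).card : ℝ) else 0) := by
        rw [if_pos ⟨hF, hm⟩]
        have h3 := card_Rm p hp a m hm.2.1
        have h4 : M ≤ 4 * (Rm M p a m).card := by omega
        have h5 : (M : ℝ) ≤ 4 * (Rm M p a m).card := by exact_mod_cast h4
        linarith
      rw [mul_one]
      refine h2.trans ?_
      apply single_le_sum (f := fun m =>
        (if P.Full M p a ∧ Gc P M p a k m then ((Rm M p a m).card : ℝ) else 0)) _ (mem_univ m)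
      intro m' _
      split_ifs <;> positivity
    · rw [mul_zero]
      apply sum_nonneg
      intro m' _
      split_ifs <;> positivity
  have h2 : ∑ m : Fin n, ∑ p ∈ grid n M, ∑ a ∈ A,
        (if P.Full M p a ∧ Gc P M p a k m then ((Rm M p a m).card : ℝ) else 0) ≤
      n * ((1 / 2 : ℝ) ^ ((k + 3) / 4) * (2 * M) ^ n) := by
    have h3 : ∀ m : Fin n, ∑ p ∈ grid n M, ∑ a ∈ A,
        (if P.Full M p a ∧ Gc P M p a k m then ((Rm M p a m).card : ℝ) else 0) ≤
        ((1 / 2 : ℝ) ^ ((k + 3) / 4) * (2 * M) ^ n) := by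
      intro m
      refine (count_m P k m).trans ((card_Bk hR P _ _ (by positivity)).trans ?_)
      exact mul_le_mul_of_nonneg_right (choose_bound k hn) (by positivity)
    refine (sum_le_sum (fun m _ => h3 m)).trans (le_of_eq ?_)
    rw [sum_const, card_univ, Fintype.card_fin, nsmul_eq_mul]
  have h3 := h1.trans h2
  obtain ⟨m, rfl⟩ : ∃ m, n = m + 1 := ⟨n - 1, by omega⟩
  simp only [Nat.add_sub_cancel]
  have e : ((m + 1 : ℕ) : ℝ) * ((1 / 2 : ℝ) ^ ((k + 3) / 4) * (2 * M) ^ (m + 1)) =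
      (M : ℝ) / 4 * (8 * ((m + 1 : ℕ) : ℝ) * (1 / 2 : ℝ) ^ ((k + 3) / 4) * (2 * M) ^ m) := by
    rw [pow_succ]
    ring
  rw [e] at h3
  exact le_of_mul_le_mul_left h3 (by positivity)

/-- The constant of the small rank case. -/
def Cs : ℝ := ∑' k : ℕ, (k : ℝ) ^ 2 * (17 / 20 : ℝ) ^ k

lemma Cs_summable : Summable (fun k : ℕ => (k : ℝ) ^ 2 * (17 / 20 : ℝ) ^ k) := by
  apply summable_pow_mul_geometric_of_norm_lt_one 2
  rw [Real.norm_of_nonneg] <;> norm_num

lemma sum_le_Cs (N : ℕ) : ∑ k ∈ range N, (k : ℝ) ^ 2 * (1 / 2 : ℝ) ^ ((k + 3) / 4) ≤ Cs := by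
  have h1 : ∑ k ∈ range N, (k : ℝ) ^ 2 * (1 / 2 : ℝ) ^ ((k + 3) / 4) ≤
      ∑ k ∈ range N, (k : ℝ) ^ 2 * (17 / 20 : ℝ) ^ k := by
    apply sum_le_sum
    intro k _
    apply mul_le_mul_of_nonneg_left _ (by positivity)
    calc (1 / 2 : ℝ) ^ ((k + 3) / 4) ≤ ((17 / 20 : ℝ) ^ 4) ^ ((k + 3) / 4) := by
          apply pow_le_pow_left₀ (by norm_num)
          norm_num
      _ = (17 / 20 : ℝ) ^ (4 * ((k + 3) / 4)) := by rw [← pow_mul]
      _ ≤ (17 / 20 : ℝ) ^ k := by
          apply pow_le_pow_of_le_one (by norm_num) (by norm_num)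
          omega
  refine h1.trans ?_
  exact Summable.sum_le_tsum _ (fun k _ => by positivity) Cs_summable

open Classical in
/-- The total contribution of the small rank case. -/
lemma sum_G (hR : S_RANK) (P : Pot n A) (hn : 1 ≤ n) (hM : 2 ≤ M) :
    ∑ p ∈ grid n M, ∑ a ∈ A, (if P.Full M p a then
      (if ∃ m, Gc P M p a (Kd P p a).card m then ((Kd P p a).card : ℝ) ^ 2 else 0) else 0) ≤
      8 * Cs * n * (2 * M) ^ (n - 1) := by
  have h1 : ∀ p ∈ grid n M, ∀ a ∈ A, (if P.Full M p a then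
      (if ∃ m, Gc P M p a (Kd P p a).card m then ((Kd P p a).card : ℝ) ^ 2 else 0) else 0) ≤
      ∑ k ∈ range (n + 1), (k : ℝ) ^ 2 *
        (if P.Full M p a ∧ ∃ m, Gc P M p a k m then (1 : ℝ) else 0) := by
    intro p _ a _
    have hnn : ∀ k ∈ range (n + 1), (0 : ℝ) ≤ (k : ℝ) ^ 2 *
        (if P.Full M p a ∧ ∃ m, Gc P M p a k m then (1 : ℝ) else 0) := by
      intro k _
      split_ifs <;> positivity
    split_ifs with hF hG
    · have hk : (Kd P p a).card ∈ range (n + 1) := by
        rw [mem_range]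
        have := card_le_univ (Kd P p a)
        simp only [Fintype.card_fin] at this
        omega
      have := single_le_sum hnn hk
      rw [if_pos ⟨hF, hG⟩, mul_one] at this
      exact this
    · exact sum_nonneg hnn
    · exact sum_nonneg hnn
  refine (sum_le_sum (fun p hp => sum_le_sum (fun a ha => h1 p hp a ha))).trans ?_
  have h2 : ∑ p ∈ grid n M, ∑ a ∈ A, ∑ k ∈ range (n + 1), (k : ℝ) ^ 2 *
        (if P.Full M p a ∧ ∃ m, Gc P M p a k m then (1 : ℝ) else 0) =
      ∑ k ∈ range (n + 1), (k : ℝ) ^ 2 * ∑ p ∈ grid n M, ∑ a ∈ A,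
        (if P.Full M p a ∧ ∃ m, Gc P M p a k m then (1 : ℝ) else 0) := by
    rw [sum_congr rfl (fun p _ => sum_comm), sum_comm]
    apply sum_congr rfl
    intro k _
    simp only [mul_sum]
  rw [h2]
  have h3 : ∑ k ∈ range (n + 1), (k : ℝ) ^ 2 * ∑ p ∈ grid n M, ∑ a ∈ A,
        (if P.Full M p a ∧ ∃ m, Gc P M p a k m then (1 : ℝ) else 0) ≤
      ∑ k ∈ range (n + 1), (k : ℝ) ^ 2 * (8 * n * (1 / 2 : ℝ) ^ ((k + 3) / 4) * (2 * M) ^ (n - 1)) :=
    sum_le_sum (fun k _ => mul_le_mul_of_nonneg_left (count_G hR P hn hM k) (by positivity))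
  refine h3.trans ?_
  have h4 : ∑ k ∈ range (n + 1), (k : ℝ) ^ 2 * (8 * n * (1 / 2 : ℝ) ^ ((k + 3) / 4) * (2 * M) ^ (n - 1)) =
      (8 * n * (2 * M) ^ (n - 1)) * ∑ k ∈ range (n + 1), (k : ℝ) ^ 2 * (1 / 2 : ℝ) ^ ((k + 3) / 4) := by
    rw [mul_sum]
    apply sum_congr rfl
    intro k _
    ring
  rw [h4]
  calc _ ≤ (8 * n * (2 * M) ^ (n - 1) : ℝ) * Cs :=
        mul_le_mul_of_nonneg_left (sum_le_Cs _) (by positivity)
    _ = _ := by ring

/-! ## The two theorems -/

lemma Cs_nonneg : 0 ≤ Cs := tsum_nonneg (fun k => by positivity)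

lemma Bal_mono (P : Pot n A) (M : ℕ) {δ δ' : ℝ} (h : δ ≤ δ') (hB : P.Bal M δ) : P.Bal M δ' := by
  intro a ha
  have := hB a ha
  have hp : (0 : ℝ) ≤ 2 * (M : ℝ) ^ n := by positivity
  constructor
  · refine le_trans (mul_le_mul_of_nonneg_right (by linarith) hp) this.1
  · refine this.2.trans (mul_le_mul_of_nonneg_right (by linarith) hp)

theorem t_STR2 (hL : S_LINE) (hR : S_RANK) (hT : S_TAIL) : S_STR2 := by
  classical
  obtain ⟨CT, hCT, hT⟩ := hT
  have hCs := Cs_nonneg
  refine ⟨416 + 1024 * CT + 8 * Cs, by positivity, ?_⟩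
  intro n hn A hA
  have hn1 : 1 ≤ n := by omega
  have hn0 : (0 : ℝ) < n := by exact_mod_cast hn1
  refine ⟨max 2 (Nat.ceil (CT * n)), ?_⟩
  intro M hM P hB
  have hM2 : 2 ≤ M := le_trans (le_max_left _ _) hM
  have hMC : CT * n ≤ M := (Nat.le_ceil _).trans (by exact_mod_cast (le_max_right 2 _).trans hM)
  obtain ⟨t1, t2⟩ := hT n hn1 A hA M hMC P hB
  have hcost := sum_cost_le P CT t1 t2
  have hNC := noncentral P hM2 hn1 CT hcost
  have hJE := card_JE (M := M) P
  have hB4 : P.Bal M (1 / 4) := by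
    apply Bal_mono P M _ hB
    have : (2 : ℝ) ≤ n := by exact_mod_cast hn
    apply one_div_le_one_div_of_le (by norm_num)
    linarith
  have hLINE := hL n hn1 A M (by omega) P hB4
  set φ1 : (Fin n → ℤ) × Fin n × Bool → ℝ := fun _ => 1 with hφ1
  set φ2 : (Fin n → ℤ) × Fin n × Bool → ℝ := fun t => if (M : ℤ) < |t.1 t.2.1| then (1 : ℝ) else 0 with hφ2
  set φ3 : (Fin n → ℤ) × Fin n × Bool → ℝ := fun t =>
    rk (P.cell M (P.T (nb t.1 t.2.1 t.2.2))) t.2.2 t.2.1 (nb t.1 t.2.1 t.2.2) with hφ3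
  have s1 := sum_full_le (M := M) P φ1 (fun _ => zero_le_one)
  have s2 := sum_full_le (M := M) P φ2 (fun t => by rw [hφ2]; simp only; split_ifs <;> norm_num)
  have s3 := sum_full_le (M := M) P φ3 (fun t => rk_nonneg _ _ _ _)
  have s4 := sum_G hR P hn1 hM2
  have r1 : ∑ t ∈ P.JE M, φ1 t ≤ 2 * n * (2 * M) ^ (n - 1) := by
    rw [hφ1]
    simpa using hJE
  have r2 : ∑ t ∈ P.JE M, φ2 t ≤ 512 * CT * (2 * M) ^ (n - 1) := hNC
  have r3 : ∑ t ∈ P.JE M, φ3 t ≤ 2 * (2 * M) ^ (n - 1) := hLINE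
  have pw : ∀ p ∈ grid n M, ∀ a ∈ A, (if P.Full M p a then (hammingDist a (P.T p) : ℝ) ^ 2 else 0) ≤
      16 * (if P.Full M p a then ∑ l ∈ Kd P p a, φ1 (p, l, a l) else 0) +
      2 * n * (if P.Full M p a then ∑ l ∈ Kd P p a, φ2 (p, l, a l) else 0) +
      192 * n * (if P.Full M p a then ∑ l ∈ Kd P p a, φ3 (p, l, a l) else 0) +
      (if P.Full M p a then
      (if ∃ m, Gc P M p a (Kd P p a).card m then ((Kd P p a).card : ℝ) ^ 2 else 0) else 0) := by
    intro p hp a _
    by_cases hF : P.Full M p a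
    · simp only [if_pos hF]
      have h := pt_ineq P p hp a hn1
      have e1 : ∑ l ∈ Kd P p a, φ1 (p, l, a l) = ((Kd P p a).card : ℝ) := by
        rw [hφ1]
        simp
      have e2 : ∑ l ∈ Kd P p a, φ2 (p, l, a l) =
          (((Kd P p a).filter (fun l => (M : ℤ) < |p l|)).card : ℝ) := by
        rw [hφ2]
        simp only
        rw [← sum_filter]
        simp
      have e3 : ∑ l ∈ Kd P p a, φ3 (p, l, a l) = sg P M p a := by
        rw [hφ3]
        unfold sg
        apply sum_congr rfl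
        intro l hl
        simp only
        rw [(full_JE P p hp a hF l hl).2]
      rw [e1, e2, e3, ← card_Kd]
      exact h
    · simp only [if_neg hF]
      norm_num
  have h1 := sum_le_sum (fun p hp => sum_le_sum (fun a ha => pw p hp a ha))
  simp only [sum_add_distrib, ← mul_sum] at h1
  refine h1.trans ?_
  have q1 := mul_le_mul_of_nonneg_left (s1.trans r1) (by norm_num : (0 : ℝ) ≤ 16)
  have q2 := mul_le_mul_of_nonneg_left (s2.trans r2) (by positivity : (0 : ℝ) ≤ 2 * n)
  have q3 := mul_le_mul_of_nonneg_left (s3.trans r3) (by positivity : (0 : ℝ) ≤ 192 * n)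
  calc _ ≤ 16 * (2 * n * (2 * (M : ℝ)) ^ (n - 1)) + 2 * n * (512 * CT * (2 * (M : ℝ)) ^ (n - 1)) +
        192 * n * (2 * (2 * (M : ℝ)) ^ (n - 1)) + 8 * Cs * n * (2 * (M : ℝ)) ^ (n - 1) :=
        add_le_add (add_le_add (add_le_add q1 q2) q3) s4
    _ = _ := by ring

open Classical in
/-- From full jump edges to full pairs. -/
lemma full_sum (P : Pot n A) :
    ∑ t ∈ P.JE M, (if P.Full M t.1 (P.T (nb t.1 t.2.1 t.2.2)) then
      (hammingDist (P.T t.1) (P.T (nb t.1 t.2.1 t.2.2)) : ℝ) else 0) ≤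
    ∑ p ∈ grid n M, ∑ a ∈ A, (if P.Full M p a then (hammingDist a (P.T p) : ℝ) ^ 2 else 0) := by
  rw [sum_JE]
  apply sum_le_sum
  intro p hp
  have h1 : ∀ a ∈ A, (if P.Full M p a then (hammingDist a (P.T p) : ℝ) ^ 2 else 0) =
      ∑ l : Fin n, ∑ b : Bool, (if (P.Full M p a ∧ l ∈ Kd P p a) ∧ a l = b then
        (hammingDist a (P.T p) : ℝ) else 0) := by
    intro a _
    have e : ∀ l : Fin n, ∑ b : Bool,
        (if (P.Full M p a ∧ l ∈ Kd P p a) ∧ a l = b then (hammingDist a (P.T p) : ℝ) else 0) =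
        if P.Full M p a ∧ l ∈ Kd P p a then (hammingDist a (P.T p) : ℝ) else 0 := by
      intro l
      by_cases hc : P.Full M p a ∧ l ∈ Kd P p a
      · simp only [hc, true_and, if_true]
        simp
      · simp [hc]
    simp only [e]
    by_cases hF : P.Full M p a
    · simp only [hF, true_and, if_true]
      rw [← sum_filter, sum_const, nsmul_eq_mul]
      have : (univ.filter (fun l => l ∈ Kd P p a)) = Kd P p a := by
        ext l
        simp
      rw [this, card_Kd, sq]
    · simp [hF]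
  rw [sum_congr rfl h1, sum_comm (s := A)]
  apply sum_le_sum
  intro l _
  rw [sum_comm (s := A)]
  apply sum_le_sum
  intro b _
  simp only
  have hnn : ∀ a ∈ A, (0 : ℝ) ≤ (if (P.Full M p a ∧ l ∈ Kd P p a) ∧ a l = b then
        (hammingDist a (P.T p) : ℝ) else 0) := by
    intro a _
    split_ifs <;> positivity
  split_ifs with hJ hF
  · have hs := jump_sides P p l b ((mem_JE P _).1 hJ).2.2
    have := single_le_sum hnn (P.mem (nb p l b))
    rw [if_pos ⟨⟨hF, by rw [mem_Kd, hs.1, hs.2]; cases b <;> simp⟩, hs.1⟩] at this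
    rw [hammingDist_comm]
    exact this
  · exact sum_nonneg hnn
  · exact sum_nonneg hnn

/-- The stretch in direction `i` is bounded by the sum over the jumps. -/
lemma stretch_dir (P : Pot n A) (i : Fin n) :
    ∑ x ∈ grid n M, (hammingDist (P.T x) (P.T (flipS {i} x)) : ℝ) ≤
      2 * M * ∑ p ∈ grid n M, (if (p, i, true) ∈ P.JE M then
        (hammingDist (P.T p) (P.T (nb p i true)) : ℝ) else 0) := by
  classical
  set ψ : (Fin n → ℤ) → ℝ := fun p => if (p, i, true) ∈ P.JE M then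
        (hammingDist (P.T p) (P.T (nb p i true)) : ℝ) else 0 with hψ
  have hψ0 : ∀ p, 0 ≤ ψ p := by
    intro p
    rw [hψ]
    simp only
    split_ifs <;> positivity
  rw [← K1H85.ST.line_sum i ψ]
  apply sum_le_sum
  intro x hx
  have hfl : ∀ k, k ≠ i → x k = flipS {i} x k := by
    intro k hk
    unfold flipS
    simp [hk]
  have hfi : flipS {i} x i = - x i := by
    unfold flipS
    simp
  have hfg : flipS {i} x ∈ grid n M := by
    rw [K1H85.ST.mem_grid]
    intro k
    by_cases hk : k = i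
    · subst hk
      rw [hfi]
      have := K1H85.ST.mem_box.1 (K1H85.ST.mem_grid.1 hx k)
      rw [K1H85.ST.mem_box]
      exact ⟨⟨by omega, by omega⟩, this.2.neg⟩
    · rw [← hfl k hk]
      exact K1H85.ST.mem_grid.1 hx k
  by_cases hT : P.T x = P.T (flipS {i} x)
  · rw [← hT, hammingDist_self]
    push_cast
    exact sum_nonneg (fun t _ => hψ0 _)
  · have hodd := odd_of_grid hx i
    have hne : x i ≠ 0 := by
      intro h
      rw [h] at hodd
      obtain ⟨u, hu⟩ := hodd
      omega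
    rcases lt_or_gt_of_ne hne with hlt | hlt
    · obtain ⟨t, ht, hJ, h1, h2⟩ := exists_jump P i x (flipS {i} x) hx hfg hfl (by rw [hfi]; omega) hT
      refine le_trans ?_ (single_le_sum (f := fun t => ψ (Function.update x i t))
        (fun t _ => hψ0 _) ht)
      rw [hψ]
      simp only
      rw [if_pos hJ, h1, h2]
    · obtain ⟨t, ht, hJ, h1, h2⟩ := exists_jump P i (flipS {i} x) x hfg hx
        (fun k hk => (hfl k hk).symm) (by rw [hfi]; omega) (fun e => hT e.symm)
      have hu : Function.update (flipS {i} x) i t = Function.update x i t := by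
        funext k
        by_cases hk : k = i
        · subst hk; simp
        · rw [Function.update_of_ne hk, Function.update_of_ne hk]
          exact (hfl k hk).symm
      rw [hu] at hJ h1 h2
      refine le_trans ?_ (single_le_sum (f := fun t => ψ (Function.update x i t))
        (fun t _ => hψ0 _) ht)
      rw [hψ]
      simp only
      rw [if_pos hJ, h1, h2, hammingDist_comm]

theorem t_STR (hL : S_LINE) (hR : S_RANK) (hN : S_NF) (hT : S_TAIL) : S_STR := by
  classical
  obtain ⟨C, hC, h2⟩ := t_STR2 hL hR hT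
  refine ⟨C + 1, by positivity, ?_⟩
  intro n hn A hA
  obtain ⟨M0, hM0⟩ := h2 n hn A hA
  refine ⟨max (max 1 M0) (n * (n * A.card ^ 2 + A.card ^ 3)), ?_⟩
  intro M hM P hB
  have hM1 : 1 ≤ M := le_trans (le_trans (le_max_left _ _) (le_max_left _ _)) hM
  have hMM0 : M0 ≤ M := le_trans (le_trans (le_max_right _ _) (le_max_left _ _)) hM
  have hMN : n * (n * A.card ^ 2 + A.card ^ 3) ≤ M := le_trans (le_max_right _ _) hM
  have hMr : (0 : ℝ) < M := by exact_mod_cast hM1
  have h3 := hM0 M hMM0 P hB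
  have h4 := hN n hn A M hM1 P
  have h5 := full_sum (M := M) P
  -- all jumps
  have h6 : ∑ t ∈ P.JE M, (hammingDist (P.T t.1) (P.T (nb t.1 t.2.1 t.2.2)) : ℝ) ≤
      (C + 1) * n * (2 * M) ^ (n - 1) := by
    have e1 : ∀ t ∈ P.JE M, (hammingDist (P.T t.1) (P.T (nb t.1 t.2.1 t.2.2)) : ℝ) ≤
        (if P.Full M t.1 (P.T (nb t.1 t.2.1 t.2.2)) then
          (hammingDist (P.T t.1) (P.T (nb t.1 t.2.1 t.2.2)) : ℝ) else 0) +
        (if ¬ P.Full M t.1 (P.T (nb t.1 t.2.1 t.2.2)) then (n : ℝ) else 0) := by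
      intro t _
      have hd : (hammingDist (P.T t.1) (P.T (nb t.1 t.2.1 t.2.2)) : ℝ) ≤ n := by
        have := hammingDist_le_card_fintype (x := P.T t.1) (y := P.T (nb t.1 t.2.1 t.2.2))
        rw [Fintype.card_fin] at this
        exact_mod_cast this
      by_cases hF : P.Full M t.1 (P.T (nb t.1 t.2.1 t.2.2))
      · simp [hF]
      · simp only [hF, if_false, not_false_eq_true, if_true]
        linarith
    refine (sum_le_sum e1).trans ?_
    rw [sum_add_distrib]
    have e2 : ∑ t ∈ P.JE M, (if ¬ P.Full M t.1 (P.T (nb t.1 t.2.1 t.2.2)) then (n : ℝ) else 0) =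
        (((P.JE M).filter (fun t : (Fin n → ℤ) × Fin n × Bool =>
          ¬ (P.Full M t.1 (P.T (nb t.1 t.2.1 t.2.2))))).card : ℝ) * n := by
      rw [← sum_filter, sum_const, nsmul_eq_mul]
    rw [e2]
    have e3 : (((P.JE M).filter (fun t : (Fin n → ℤ) × Fin n × Bool =>
          ¬ (P.Full M t.1 (P.T (nb t.1 t.2.1 t.2.2))))).card : ℝ) * n ≤ n * (2 * M) ^ (n - 1) := by
      have hMN' : (n : ℝ) * (n * (A.card : ℝ) ^ 2 + (A.card : ℝ) ^ 3) ≤ M := by exact_mod_cast hMN
      rw [mul_comm]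
      apply mul_le_mul_of_nonneg_left _ (by positivity)
      refine le_trans h4 ?_
      have this : n - 1 = (n - 2) + 1 := by omega
      have e5 : (2 * (M : ℝ)) ^ (n - 1) = (2 * M) * (2 * (M : ℝ)) ^ (n - 2) := by
        rw [this, pow_succ]
        ring
      rw [e5]
      apply mul_le_mul_of_nonneg_right _ (by positivity)
      linarith
    calc _ ≤ C * n * (2 * M) ^ (n - 1) + n * (2 * M) ^ (n - 1) := add_le_add (h5.trans h3) e3
      _ = _ := by ring
  have h7 : ∑ i : Fin n, ∑ p ∈ grid n M, (if (p, i, true) ∈ P.JE M then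
        (hammingDist (P.T p) (P.T (nb p i true)) : ℝ) else 0) ≤
      ∑ t ∈ P.JE M, (hammingDist (P.T t.1) (P.T (nb t.1 t.2.1 t.2.2)) : ℝ) := by
    rw [sum_JE, sum_comm]
    apply sum_le_sum
    intro p _
    apply sum_le_sum
    intro i _
    exact single_le_sum (f := fun b : Bool => (if (p, i, b) ∈ P.JE M then
        (hammingDist (P.T p) (P.T (nb p i b)) : ℝ) else 0))
      (fun b _ => by split_ifs <;> positivity) (mem_univ true)
  calc ∑ i : Fin n, ∑ x ∈ grid n M, (hammingDist (P.T x) (P.T (flipS {i} x)) : ℝ)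
      ≤ ∑ i : Fin n, 2 * M * ∑ p ∈ grid n M, (if (p, i, true) ∈ P.JE M then
        (hammingDist (P.T p) (P.T (nb p i true)) : ℝ) else 0) :=
        sum_le_sum (fun i _ => stretch_dir P i)
    _ ≤ 2 * M * ((C + 1) * n * (2 * M) ^ (n - 1)) := by
        rw [← mul_sum]
        exact mul_le_mul_of_nonneg_left (h7.trans h6) (by positivity)
    _ = (C + 1) * n * (2 * M) ^ n := by
        obtain ⟨m, rfl⟩ : ∃ m, n = m + 1 := ⟨n - 1, by omega⟩
        simp only [Nat.add_sub_cancel]
        rw [pow_succ]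
        ring

end Pool.Agent.K1H9.ST
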