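import Pool.Agent.K1H37.ST.Grid
import Pool.Agent.K1H85.ST.Basic

/-!
# Geometry of the lines: monotonicity, jumps, counting of jump edges
-/

set_option autoImplicit false

noncomputable section

namespace Pool.Agent.K1H9.ST

open Finset hiding box
open Pool.Agent.K1H64.ST

variable {n M : ℕ} {A : Finset (Cube n)}

lemma sn_inj {a b : Bool} (h : a ≠ b) : sn a - sn b = 2 ∧ a = true ∧ b = false ∨
    sn a - sn b = -2 ∧ a = false ∧ b = true := by
  cases a <;> cases b <;> simp [sn] at h ⊢

/-- Monotonicity along lines. -/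
lemma mono_line (P : Pot n A) (i : Fin n) (x y : Fin n → ℤ) (hxy : ∀ k, k ≠ i → x k = y k)
    (hlt : x i < y i) (hne : P.T x ≠ P.T y) : P.T x i = false ∧ P.T y i = true := by
  have b1 := P.best x _ (P.mem y) (fun e => hne e.symm)
  have b2 := P.best y _ (P.mem x) hne
  have e1 := K1H37.ST.dot_sub (P.T y) x y i hxy
  have e2 := K1H37.ST.dot_sub (P.T x) x y i hxy
  have e1' : (dot (P.T y) x : ℝ) - dot (P.T y) y = sn (P.T y i) * ((x i : ℝ) - y i) := by
    exact_mod_cast e1
  have e2' : (dot (P.T x) x : ℝ) - dot (P.T x) y = sn (P.T x i) * ((x i : ℝ) - y i) := by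
    exact_mod_cast e2
  have hlt' : (x i : ℝ) < y i := by exact_mod_cast hlt
  have h : (sn (P.T y i) : ℝ) * ((x i : ℝ) - y i) < sn (P.T x i) * ((x i : ℝ) - y i) := by
    linarith
  have h' : (sn (P.T x i) : ℝ) < sn (P.T y i) := by nlinarith
  have h'' : sn (P.T x i) < sn (P.T y i) := by exact_mod_cast h'
  revert h''
  cases P.T x i <;> cases P.T y i <;> simp [sn]

lemma nb_self (p : Fin n → ℤ) (i : Fin n) (b : Bool) : nb p i b i = p i + 2 * sn b := by
  simp [nb]

lemma nb_of_ne (p : Fin n → ℤ) (i : Fin n) (b : Bool) {k : Fin n} (h : k ≠ i) :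
    nb p i b k = p k := by
  simp [nb, Function.update_of_ne h]

/-- The value beyond a point whose cell looks in the direction of the move. -/
lemma beyond (P : Pot n A) (i : Fin n) (x y : Fin n → ℤ) (hxy : ∀ k, k ≠ i → x k = y k)
    (hlt : sn (P.T x i) * x i ≤ sn (P.T x i) * y i) : P.T y = P.T x := by
  by_contra hne
  rcases lt_trichotomy (x i) (y i) with h | h | h
  · have := mono_line P i x y hxy h (fun e => hne e.symm)
    rw [this.1] at hlt
    simp only [sn] at hlt
    simp at hlt
    omega
  · have : x = y := by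
      funext k
      by_cases hk : k = i
      · rw [hk]; exact h
      · exact hxy k hk
    exact hne (by rw [this])
  · have := mono_line P i y x (fun k hk => (hxy k hk).symm) h hne
    rw [this.2] at hlt
    simp only [sn] at hlt
    simp at hlt
    omega

/-- The sides of a jump. -/
lemma jump_sides (P : Pot n A) (p : Fin n → ℤ) (i : Fin n) (b : Bool)
    (hne : P.T (nb p i b) ≠ P.T p) : P.T (nb p i b) i = b ∧ P.T p i = !b := by
  cases b
  · have := mono_line P i (nb p i false) p (fun k hk => nb_of_ne p i false hk)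
      (by rw [nb_self]; simp [sn]) hne
    simpa using this
  · have := mono_line P i p (nb p i true) (fun k hk => (nb_of_ne p i true hk).symm)
      (by rw [nb_self]; simp [sn]) (fun e => hne e.symm)
    exact ⟨this.2, by simpa using this.1⟩

lemma mem_JE (P : Pot n A) (t : (Fin n → ℤ) × Fin n × Bool) :
    t ∈ P.JE M ↔ t.1 ∈ grid n M ∧ nb t.1 t.2.1 t.2.2 ∈ grid n M ∧
      P.T (nb t.1 t.2.1 t.2.2) ≠ P.T t.1 := by
  unfold Pot.JE
  simp [and_assoc]

lemma odd_of_grid {x : Fin n → ℤ} (hx : x ∈ grid n M) (l : Fin n) : Odd (x l) :=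
  (K1H85.ST.mem_box.1 (K1H85.ST.mem_grid.1 hx l)).2

/-- Uniqueness of the jump on a line. -/
lemma jump_unique (P : Pot n A) (i : Fin n) (b : Bool) (p q : Fin n → ℤ)
    (hp : (p, i, b) ∈ P.JE M) (hq : (q, i, b) ∈ P.JE M) (hpq : ∀ k, k ≠ i → p k = q k) : p = q := by
  -- it is enough to exclude strict inequalities
  have main : ∀ p q : Fin n → ℤ, (p, i, b) ∈ P.JE M → (q, i, b) ∈ P.JE M →
      (∀ k, k ≠ i → p k = q k) → ¬ (sn b * p i < sn b * q i) := by
    intro p q hp hq hpq hlt
    rw [mem_JE] at hp hq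
    simp only at hp hq
    have s1 := jump_sides P p i b hp.2.2
    have s2 := jump_sides P q i b hq.2.2
    have hop := odd_of_grid hp.1 i
    have hoq := odd_of_grid hq.1 i
    have h := beyond P i (nb p i b) q (fun k hk => by rw [nb_of_ne p i b hk]; exact hpq k hk) (by
      rw [s1.1, nb_self]
      obtain ⟨u, hu⟩ := hop
      obtain ⟨v, hv⟩ := hoq
      cases b <;> simp only [sn] at hlt ⊢ <;> simp at hlt ⊢ <;> omega)
    have h1 : P.T q i = b := by rw [h]; exact s1.1
    rw [s2.2] at h1
    cases b <;> simp at h1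
  funext k
  by_cases hk : k = i
  · rw [hk]
    have h1 := main p q hp hq hpq
    have h2 := main q p hq hp (fun k hk => (hpq k hk).symm)
    cases b <;> simp only [sn] at h1 h2 <;> simp at h1 h2 <;> omega
  · exact hpq k hk

/-- The number of jump edges of a given direction. -/
lemma card_dir (P : Pot n A) (i : Fin n) (b : Bool) :
    ((grid n M).filter (fun p => (p, i, b) ∈ P.JE M)).card ≤ (2 * M) ^ (n - 1) := by
  have := K1H37.ST.card_le_of_det {i} ((grid n M).filter (fun p => (p, i, b) ∈ P.JE M))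
    (filter_subset _ _) (by
      intro x hx y hy h
      apply jump_unique P i b x y (mem_filter.1 hx).2 (mem_filter.1 hy).2
      intro k hk
      exact h k (by simpa using hk))
  simpa using this

/-- Sum over the jump edges as an iterated sum. -/
lemma sum_JE (P : Pot n A) (φ : (Fin n → ℤ) × Fin n × Bool → ℝ) :
    ∑ t ∈ P.JE M, φ t = ∑ p ∈ grid n M, ∑ i : Fin n, ∑ b : Bool,
      if (p, i, b) ∈ P.JE M then φ (p, i, b) else 0 := by
  have h1 : ∑ t ∈ P.JE M, φ t = ∑ t ∈ (grid n M) ×ˢ ((univ : Finset (Fin n)) ×ˢ (univ : Finset Bool)),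
      if t ∈ P.JE M then φ t else 0 := by
    rw [← sum_filter]
    apply sum_congr _ (fun _ _ => rfl)
    ext t
    simp only [mem_filter, mem_product, mem_univ, and_true]
    constructor
    · intro h
      exact ⟨((mem_JE P t).1 h).1, h⟩
    · exact fun h => h.2
  rw [h1, sum_product]
  apply sum_congr rfl
  intro p _
  rw [sum_product]

/-- The number of oriented jump edges. -/
lemma card_JE (P : Pot n A) : ((P.JE M).card : ℝ) ≤ 2 * n * (2 * M) ^ (n - 1) := by
  have h1 : ((P.JE M).card : ℝ) = ∑ t ∈ P.JE M, (1 : ℝ) := by simp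
  rw [h1, sum_JE, sum_comm]
  have h2 : ∀ i : Fin n, ∑ p ∈ grid n M, ∑ b : Bool, (if (p, i, b) ∈ P.JE M then (1 : ℝ) else 0) ≤
      2 * (2 * M) ^ (n - 1) := by
    intro i
    rw [sum_comm]
    have h3 : ∀ b : Bool, ∑ p ∈ grid n M, (if (p, i, b) ∈ P.JE M then (1 : ℝ) else 0) ≤
        (2 * M) ^ (n - 1) := by
      intro b
      rw [← sum_filter]
      simp only [sum_const, nsmul_eq_mul, mul_one]
      exact_mod_cast card_dir (M := M) P i b
    refine (sum_le_sum (fun b _ => h3 b)).trans ?_
    simp
  refine (sum_le_sum (fun i _ => h2 i)).trans ?_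
  simp only [sum_const, card_univ, Fintype.card_fin, nsmul_eq_mul]
  apply le_of_eq
  ring

/-- A jump between two points of a line. -/
lemma exists_jump (P : Pot n A) (i : Fin n) (x y : Fin n → ℤ) (hx : x ∈ grid n M) (hy : y ∈ grid n M)
    (hxy : ∀ k, k ≠ i → x k = y k) (hlt : x i < y i) (hne : P.T x ≠ P.T y) :
    ∃ t ∈ box M, (Function.update x i t, i, true) ∈ P.JE M ∧
      P.T (Function.update x i t) = P.T x ∧ P.T (nb (Function.update x i t) i true) = P.T y := by
  classical
  set B : Finset ℤ := (box M).filter (fun t => t < y i ∧ P.T (Function.update x i t) = P.T x) with hB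
  have hxB : x i ∈ B := by
    rw [hB, mem_filter]
    exact ⟨K1H85.ST.mem_grid.1 hx i, hlt, by simp⟩
  set t := B.max' ⟨_, hxB⟩ with ht
  have htB : t ∈ B := max'_mem _ _
  rw [hB, mem_filter] at htB
  obtain ⟨htb, hty, hT⟩ := htB
  have hbt := (K1H85.ST.mem_box.1 htb)
  have hby := (K1H85.ST.mem_box.1 (K1H85.ST.mem_grid.1 hy i))
  have hbt' := hbt.2
  have hby' := hby.2
  obtain ⟨u, hu⟩ := hbt'
  obtain ⟨v, hv⟩ := hby'
  have hle : t + 2 ≤ y i := by omega
  have htb2 : t + 2 ∈ box M := by
    rw [K1H85.ST.mem_box]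
    exact ⟨⟨by omega, by omega⟩, ⟨u + 1, by omega⟩⟩
  have hnb : nb (Function.update x i t) i true = Function.update x i (t + 2) := by
    unfold nb
    simp [sn]
  have hT2 : P.T (Function.update x i (t + 2)) ≠ P.T x := by
    intro h
    rcases lt_or_eq_of_le hle with h' | h'
    · have : t + 2 ∈ B := by
        rw [hB, mem_filter]
        exact ⟨htb2, h', h⟩
      have := le_max' B _ this
      rw [← ht] at this
      omega
    · have e : Function.update x i (t + 2) = y := by
        funext k
        by_cases hk : k = i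
        · subst hk; simp [h']
        · rw [Function.update_of_ne hk]; exact hxy k hk
      rw [e] at h
      exact hne h.symm
  have hJ : P.T (nb (Function.update x i t) i true) ≠ P.T (Function.update x i t) := by
    rw [hnb, hT]
    exact hT2
  refine ⟨t, htb, ?_, hT, ?_⟩
  · rw [mem_JE]
    refine ⟨K1H85.ST.update_mem_grid hx i htb, ?_, hJ⟩
    simp only
    rw [hnb]
    exact K1H85.ST.update_mem_grid hx i htb2
  · have s := jump_sides P _ i true hJ
    symm
    apply beyond P i _ y
    · intro k hk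
      rw [nb_of_ne _ _ _ hk, Function.update_of_ne hk]
      exact hxy k hk
    · rw [s.1, hnb]
      simp [sn, hle]

end Pool.Agent.K1H9.ST
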